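import Pool.Agent.J4.H75.GF.Sub
import Pool.Agent.J4.H75.GF.BPiece

/-!
# Uniform mixing in bounded time inside dense graphs of girth greater than `2 k`

Let `k ≥ 1` and let `G` be a graph on `n` vertices of girth greater than `2 k`. (Then `G` has
`O(n ^ (1 + 1 / k))` edges; the girth conjecture says that this is the right order.)

Let `c > 0` and let `G` have at least `c n ^ (1 + 1 / k)` edges. Then `G` has a bipartite subgraph `H`
on `m ≥ δ n` vertices, all degrees of the order `m ^ (1 / k)`, such that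

* the simple random walk on `H` converges, up to parity, to its stationary distribution in the
  uniform sense, exponentially fast and with constants which do not depend on `n`: the relative error
  after `l` steps is at most `C θ ^ l` for all `l ≥ 2 k`;
* any two vertices of `H` are joined by at least `δ ^ l n ^ (l / k - 1)` walks of length `l` for
  every `l ≥ l₀` of the right parity, and if they are different and `n` is large, by at least as many
  paths of length `l` which avoid any given `M` vertices.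

The girth conjecture for `k` is equivalent to the existence of such graphs `H` with between `δ n` and
`n` vertices for all large `n`. Moreover `G` contains for large `n` all subdivisions of `K_r` in which
the edges are replaced by paths of any prescribed even lengths `≥ l₀`, where `l₀` depends only on `k`
and `c`.

Let `ε > 0` and assume that `G` cannot be made bipartite by deleting at most `ε n ^ (1 + 1 / k)`
edges. Then there is an induced subgraph `H` with these properties without the restrictions on the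
parity. So for large `n` the graph `G` contains all the subdivisions of `K_r` in which the edges are
replaced by paths with any prescribed lengths `≥ l₀`, and at least `c ^ l n ^ (l / k)` cycles of
length `l` for every `l ≥ l₀`, odd or even. Hence graphs of girth greater than `2 k` without a cycle
of one given length `l ≥ l₀(k, ε)` are nearly bipartite, and if the girth conjecture holds for `k`,
they have at most `1 + ε` times as many edges as a suitable bipartite graph of girth greater than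
`2 k` on the same number of vertices.

Idea: take the set `U` of vertices of moderate degree which maximises `b(U) / |U| ^ a`, where
`b(U)` is the number of edges inside `U`, respectively the distance of `G[U]` from bipartite graphs,
and `1 < a < 1 + 1 / k`. By the bound of Moore it has linear size, it expands and (in the second case)
is robustly not bipartite, so that the spectrum has a gap at both ends (inequalities of Cheeger type).
The diagonal entries of the `2 k`-th power of the adjacency matrix are bounded because of the girth,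
which turns the gap into uniform mixing.
-/

set_option autoImplicit false

namespace Pool.Agent.Results.MP_97687e_co.BoundedMixing

open Finset Pool.Agent.J4.H75.GE Pool.Agent.J4.H75.GF Pool.TH815.GR

/-- `G` can be made bipartite by deleting at most `t` edges. -/
def NearlyBipartite {V : Type} (G : SimpleGraph V) (t : ℝ) : Prop :=
  ∃ B : SimpleGraph V, B ≤ G ∧ B.Colorable 2 ∧ (G.edgeSet.ncard : ℝ) ≤ B.edgeSet.ncard + t

/-- The degree of `x`. -/
noncomputable def deg {m : ℕ} (H : SimpleGraph (Fin m)) (x : Fin m) : ℝ :=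
  ((H.neighborSet x).ncard : ℝ)

open Classical in
/-- The transition matrix of the simple random walk on `H`. -/
noncomputable def step {m : ℕ} (H : SimpleGraph (Fin m)) : Matrix (Fin m) (Fin m) ℝ :=
  fun x y => if H.Adj x y then 1 / deg H x else 0

/-- The stationary distribution of the simple random walk on `H`. -/
noncomputable def stat {m : ℕ} (H : SimpleGraph (Fin m)) (y : Fin m) : ℝ :=
  deg H y / ∑ z, deg H z

/-- The properties of the induced subgraph `H` on `m` vertices of a graph on `n` vertices: the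
degrees have the order `m ^ (1 / k)`, the random walk mixes uniformly in bounded time, any two
vertices are joined by many walks of each length `l ≥ l₀`, and for `n ≥ N l M` any two different
vertices are joined by many paths of length `l` avoiding any given `M` vertices. -/
structure MixingPiece (k : ℕ) (δ K C θ : ℝ) (l₀ : ℕ) (N : ℕ → ℕ → ℕ) (n : ℕ) {m : ℕ}
    (H : SimpleGraph (Fin m)) : Prop where
  degree : ∀ x, δ * (m : ℝ) ^ (1 / (k : ℝ)) ≤ deg H x ∧ deg H x ≤ K * (m : ℝ) ^ (1 / (k : ℝ))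
  mixing : ∀ l, 2 * k ≤ l → ∀ x y, |(step H ^ l) x y - stat H y| ≤ C * θ ^ l * stat H y
  walks : ∀ l, l₀ ≤ l → ∀ x y,
    δ ^ l * (n : ℝ) ^ ((l : ℝ) / k - 1) ≤ ({p : H.Walk x y | p.length = l}.ncard : ℝ)
  paths : ∀ l M, l₀ ≤ l → N l M ≤ n → ∀ S : Finset (Fin m), S.card ≤ M → ∀ x y, x ≠ y →
    x ∉ S → y ∉ S → δ ^ l * (n : ℝ) ^ ((l : ℝ) / k - 1) ≤
      ({p : H.Walk x y | p.IsPath ∧ p.length = l ∧ ∀ z ∈ S, z ∉ p.support}.ncard : ℝ)

/-- The sign of the colour of `x`. -/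
noncomputable def sign {m : ℕ} (σ : Fin m → Bool) (x : Fin m) : ℝ := if σ x then 1 else -1

/-- The bipartite form: `σ` is a proper colouring of `H` with two colours, and the properties of
`MixingPiece` hold up to parity. The number `1 + (-1) ^ l * (sign σ x * sign σ y)` is `2` if walks of
length `l` from `x` to `y` have the right parity, and `0` otherwise. -/
structure BipartitePiece (k : ℕ) (δ K C θ : ℝ) (l₀ : ℕ) (N : ℕ → ℕ → ℕ) (n : ℕ) {m : ℕ}
    (H : SimpleGraph (Fin m)) (σ : Fin m → Bool) : Prop where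
  proper : ∀ x y, H.Adj x y → σ x ≠ σ y
  degree : ∀ x, δ * (m : ℝ) ^ (1 / (k : ℝ)) ≤ deg H x ∧ deg H x ≤ K * (m : ℝ) ^ (1 / (k : ℝ))
  mixing : ∀ l, 2 * k ≤ l → ∀ x y,
    |(step H ^ l) x y - (1 + (-1) ^ l * (sign σ x * sign σ y)) * stat H y| ≤ C * θ ^ l * stat H y
  walks : ∀ l, l₀ ≤ l → ∀ x y, (Even l ↔ σ x = σ y) →
    δ ^ l * (n : ℝ) ^ ((l : ℝ) / k - 1) ≤ ({p : H.Walk x y | p.length = l}.ncard : ℝ)
  paths : ∀ l M, l₀ ≤ l → N l M ≤ n → ∀ S : Finset (Fin m), S.card ≤ M → ∀ x y,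
    (Even l ↔ σ x = σ y) → x ≠ y → x ∉ S → y ∉ S → δ ^ l * (n : ℝ) ^ ((l : ℝ) / k - 1) ≤
      ({p : H.Walk x y | p.IsPath ∧ p.length = l ∧ ∀ z ∈ S, z ∉ p.support}.ncard : ℝ)

/-- `G` contains the subdivision of the complete graph on `r` vertices in which the edge `i j`
(`i < j`) is replaced by a path of length `len i j`. -/
def ContainsSubdivision {V : Type} (G : SimpleGraph V) (r : ℕ) (len : Fin r → Fin r → ℕ) : Prop :=
  ∃ (φ : Fin r → V) (P : ∀ i j, G.Walk (φ i) (φ j)), Function.Injective φ ∧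
    ∀ i j, i < j → (P i j).IsPath ∧ (P i j).length = len i j ∧
      (∀ t, t ≠ i → t ≠ j → φ t ∉ (P i j).support) ∧
      ∀ i' j', i' < j' → (i', j') ≠ (i, j) →
        ∀ z ∈ (P i j).support, z ∈ (P i' j').support → ∃ t, z = φ t

/-- The girth conjecture for the parameter `k`. -/
def GirthConjecture (k : ℕ) : Prop :=
  ∃ c : ℝ, 0 < c ∧ ∃ N : ℕ, ∀ n ≥ N, ∃ G : SimpleGraph (Fin n),
    ((2 * k : ℕ) : ℕ∞) < G.egirth ∧ c * (n : ℝ) ^ (1 + 1 / (k : ℝ)) ≤ (G.edgeSet.ncard : ℝ)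

theorem ncard_nbr {m : ℕ} (H : SimpleGraph (Fin m)) [DecidableRel H.Adj] (x : Fin m) :
    deg H x = H.degree x := by
  unfold deg
  rw [← H.card_neighborFinset_eq_degree, ← Set.ncard_coe_finset]
  congr 2
  ext y
  simp

theorem step_eq {m : ℕ} (H : SimpleGraph (Fin m)) [DecidableRel H.Adj] : step H = nT H := by
  ext x y
  unfold step nT ad
  rw [ncard_nbr]
  by_cases h : H.Adj x y
  · rw [if_pos h, if_pos h]
  · rw [if_neg h, if_neg h, zero_div]

theorem stat_eq {m : ℕ} (H : SimpleGraph (Fin m)) [DecidableRel H.Adj] (y : Fin m) :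
    stat H y = nφ H y * nφ H y / vol H := by
  unfold stat vol
  rw [ncard_nbr, nφ_sq]
  congr 1
  exact sum_congr rfl fun z _ => ncard_nbr H z

/-- The main theorem. -/
theorem piece_theorem {k : ℕ} (hk : 1 ≤ k) {ε : ℝ} (hε : 0 < ε) :
    ∃ (δ K C θ : ℝ) (l₀ : ℕ) (N : ℕ → ℕ → ℕ), 0 < δ ∧ δ ≤ 1 ∧ 0 < θ ∧ θ < 1 ∧ 2 ≤ l₀ ∧
      ∀ (V : Type) [Fintype V] (G : SimpleGraph V), ((2 * k : ℕ) : ℕ∞) < G.egirth →
        1 ≤ Fintype.card V →
        ¬ NearlyBipartite G (ε * (Fintype.card V : ℝ) ^ (1 + 1 / (k : ℝ))) →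
        ∃ (m : ℕ) (H : SimpleGraph (Fin m)), 0 < m ∧ δ * Fintype.card V ≤ m ∧
          Nonempty (H ↪g G) ∧ MixingPiece k δ K C θ l₀ N (Fintype.card V) H := by
  obtain ⟨δ₁, h, K₁, hδ₁, hh, hK₁, hmain⟩ := exists_good hk (c := 2 * ε) (by positivity)
  have hkpos : (0 : ℝ) < k := by exact_mod_cast hk
  have hk1 : (1 : ℝ) ≤ k := by exact_mod_cast hk
  set K : ℝ := max K₁ h with hKd
  have hK : 0 < K := lt_of_lt_of_le hK₁ (le_max_left _ _)
  have hhK : h ≤ K := le_max_right _ _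
  set θ : ℝ := 1 - h ^ 2 / (2 * K ^ 2) with hθd
  have hθ1 : θ < 1 := by
    have : 0 < h ^ 2 / (2 * K ^ 2) := by positivity
    rw [hθd]; linarith
  have hθ0 : 0 < θ := by
    have : h ^ 2 / (2 * K ^ 2) ≤ 1 / 2 := by
      rw [div_le_div_iff₀ (by positivity) (by norm_num)]
      nlinarith
    rw [hθd]; linarith
  set B : ℝ := (4 * K / h ^ 2) ^ k with hB
  have hB0 : 0 < B := by positivity
  obtain ⟨n₁, hn₁⟩ := exists_pow_lt_of_lt_one (y := θ) (x := h / (2 * K) / B) (by positivity) hθ1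
  set l₀ : ℕ := 4 * k + n₁ with hl₀
  set δ₂ : ℝ := min δ₁ 1 with hδ₂
  have hδ₂0 : 0 < δ₂ := lt_min hδ₁ one_pos
  have hδ₂1 : δ₂ ≤ 1 := min_le_right _ _
  set h₁ : ℝ := min h 1 with hh₁
  have hh₁0 : 0 < h₁ := lt_min hh one_pos
  have hh₁1 : h₁ ≤ 1 := min_le_right _ _
  have hh₁h : h₁ ≤ h := min_le_left _ _
  set q : ℝ := h / (4 * K) with hq
  have hq0 : 0 < q := by positivity
  have hq1 : q ≤ 1 := by
    rw [hq, div_le_one (by positivity)]
    linarith
  set δ : ℝ := q * (h₁ * δ₂) with hδ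
  have hδ0 : 0 < δ := by positivity
  have hhδ : h₁ * δ₂ ≤ 1 := by nlinarith
  have hδ1 : δ ≤ 1 := by nlinarith
  have hδδ₂ : δ ≤ δ₂ := by
    calc δ = q * h₁ * δ₂ := by rw [hδ]; ring
      _ ≤ 1 * δ₂ := by
          apply mul_le_mul_of_nonneg_right _ hδ₂0.le
          nlinarith
      _ = δ₂ := one_mul _
  have hδh : δ ≤ h := by
    calc δ = q * δ₂ * h₁ := by rw [hδ]; ring
      _ ≤ 1 * h₁ := by
          apply mul_le_mul_of_nonneg_right _ hh₁0.le
          nlinarith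
      _ ≤ h := by linarith
  let D₀ : ℕ → ℕ → ℝ := fun l M =>
    (((l : ℝ) + 1) ^ 2 + M * ((l : ℝ) + 1)) * (4 ^ k * K ^ (l - k - 1)) / (q * h ^ l)
  refine ⟨δ, K, B * (K / h) / θ ^ (2 * k), θ, l₀, fun l M => ⌈D₀ l M ^ k / δ₂⌉₊, hδ0, hδ1, hθ0, hθ1,
    by omega, ?_⟩
  intro V _ G hg hn hnb
  classical
  rw [egirth_iff] at hg
  have hfr := fr_of_not_near G (t := ε * (Fintype.card V : ℝ) ^ (1 + 1 / (k : ℝ))) hnb
  obtain ⟨m, φ, hm, hsize, hgood⟩ := hmain V G hg hn (by rw [mul_assoc]; exact hfr)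
  set H := G.comap φ with hH
  have hm0 : (0 : ℝ) < m := by exact_mod_cast hm
  set D : ℝ := (m : ℝ) ^ (1 / (k : ℝ)) with hD
  have hD0 : 0 < D := Real.rpow_pos_of_pos hm0 _
  have hgood' : Good k h K H := by
    refine ⟨hgood.girth, fun x => (hgood.deg_le x).trans ?_, hgood.exp, hgood.rob⟩
    exact mul_le_mul_of_nonneg_right (le_max_left _ _) hD0.le
  set n : ℝ := (Fintype.card V : ℝ) with hnd
  have hn1 : (1 : ℝ) ≤ n := by rw [hnd]; exact_mod_cast hn
  have hn0 : 0 < n := by linarith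
  have hsize₂ : δ₂ * n ≤ m := le_trans (mul_le_mul_of_nonneg_right (min_le_left _ _) hn0.le) hsize
  have hd' : ∀ x, 0 < H.degree x := by
    intro x
    have : (0 : ℝ) < H.degree x := lt_of_lt_of_le (by positivity) (hgood'.deg_ge x)
    exact_mod_cast this
  have hne : Nonempty (Fin m) := ⟨⟨0, hm⟩⟩
  have hDk : D ^ k = m := by
    rw [hD, ← Real.rpow_natCast, ← Real.rpow_mul hm0.le]
    have : (1 / (k : ℝ)) * (k : ℝ) = 1 := by field_simp
    rw [this, Real.rpow_one]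
  -- the condition on `l`
  have hθl : ∀ l, l₀ ≤ l → θ ^ (l - 2 * k) * B ≤ h / (2 * K) := by
    intro l hl
    rw [← le_div_iff₀ hB0]
    refine le_trans ?_ hn₁.le
    exact pow_le_pow_of_le_one hθ0.le hθ1.le (by omega)
  -- powers of `D`
  have hpow : ∀ l, l₀ ≤ l → δ ^ l * n ^ ((l : ℝ) / k - 1) ≤ q * h ^ l * D ^ (l - k) := by
    intro l hl
    have hkl : k ≤ l := by omega
    have hl1 : 1 ≤ l := by omega
    have hkl' : (k : ℝ) ≤ l := by exact_mod_cast hkl
    have he0 : 0 ≤ (l : ℝ) / k - 1 := by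
      rw [sub_nonneg, le_div_iff₀ hkpos]
      linarith
    have hel : (l : ℝ) / k - 1 ≤ l := by
      have : (l : ℝ) / k ≤ l := div_le_self (Nat.cast_nonneg _) hk1
      linarith
    have h1 : D ^ (l - k) = (m : ℝ) ^ ((l : ℝ) / k - 1) := by
      rw [hD, ← Real.rpow_natCast, ← Real.rpow_mul hm0.le, Nat.cast_sub hkl]
      congr 1
      field_simp
    have h2 : δ₂ ^ l * n ^ ((l : ℝ) / k - 1) ≤ D ^ (l - k) := by
      rw [h1]
      calc δ₂ ^ l * n ^ ((l : ℝ) / k - 1)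
          ≤ δ₂ ^ ((l : ℝ) / k - 1) * n ^ ((l : ℝ) / k - 1) := by
            apply mul_le_mul_of_nonneg_right _ (by positivity)
            rw [← Real.rpow_natCast]
            exact Real.rpow_le_rpow_of_exponent_ge hδ₂0 hδ₂1 hel
        _ = (δ₂ * n) ^ ((l : ℝ) / k - 1) := (Real.mul_rpow hδ₂0.le hn0.le).symm
        _ ≤ _ := Real.rpow_le_rpow (by positivity) hsize₂ he0
    have h3 : δ ^ l ≤ q * (h ^ l * δ₂ ^ l) := by
      rw [hδ, mul_pow, mul_pow]
      apply mul_le_mul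
      · calc q ^ l ≤ q ^ 1 := pow_le_pow_of_le_one hq0.le hq1 hl1
          _ = q := pow_one q
      · exact mul_le_mul_of_nonneg_right (pow_le_pow_left₀ hh₁0.le hh₁h l) (by positivity)
      · positivity
      · exact hq0.le
    calc δ ^ l * n ^ ((l : ℝ) / k - 1) ≤ q * (h ^ l * δ₂ ^ l) * n ^ ((l : ℝ) / k - 1) :=
          mul_le_mul_of_nonneg_right h3 (by positivity)
      _ = q * h ^ l * (δ₂ ^ l * n ^ ((l : ℝ) / k - 1)) := by ring
      _ ≤ _ := mul_le_mul_of_nonneg_left h2 (by positivity)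
  refine ⟨m, H, hm, ?_, ⟨SimpleGraph.Embedding.comap φ G⟩, ⟨?_, ?_, ?_, ?_⟩⟩
  · refine le_trans ?_ hsize₂
    gcongr
  · intro x
    rw [ncard_nbr]
    refine ⟨le_trans ?_ (hgood'.deg_ge x), hgood'.deg_le x⟩
    gcongr
  · intro l hl x y
    rw [step_eq, stat_eq, nT_pow hd']
    have h1 := hgood'.mix hk hh hK hm hl x y
    have hx := nφ_pos hd' x
    have hy := nφ_pos hd' y
    have hv := vol_pos hd'
    have e1 : (nP H ^ l) x y * (nφ H y / nφ H x) - nφ H y * nφ H y / vol H =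
        (nφ H y / nφ H x) * ((nP H ^ l) x y - nφ H x * nφ H y / vol H) := by
      field_simp
    rw [e1, abs_mul, abs_of_pos (by positivity : 0 < nφ H y / nφ H x)]
    have h2 : h / (K * m) ≤ nφ H x * nφ H y / vol H := by
      apply hgood'.stat_ge hh hK hm
      have a1 : √(h * D) ≤ nφ H x := Real.sqrt_le_sqrt (hgood'.deg_ge x)
      have a2 : √(h * D) ≤ nφ H y := Real.sqrt_le_sqrt (hgood'.deg_ge y)
      calc h * D = √(h * D) * √(h * D) := (Real.mul_self_sqrt (by positivity)).symm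
        _ ≤ _ := mul_le_mul a1 a2 (Real.sqrt_nonneg _) ((Real.sqrt_nonneg _).trans a1)
    calc nφ H y / nφ H x * |(nP H ^ l) x y - nφ H x * nφ H y / vol H|
        ≤ nφ H y / nφ H x * (θ ^ (l - 2 * k) * (B / m)) :=
          mul_le_mul_of_nonneg_left h1 (by positivity)
      _ = nφ H y / nφ H x * (B * (K / h)) * θ ^ (l - 2 * k) * (h / (K * m)) := by
          field_simp
      _ ≤ nφ H y / nφ H x * (B * (K / h)) * θ ^ (l - 2 * k) * (nφ H x * nφ H y / vol H) :=
          mul_le_mul_of_nonneg_left h2 (by positivity)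
      _ = B * (K / h) * θ ^ (l - 2 * k) * (nφ H y * nφ H y / vol H) := by
          field_simp
      _ = B * (K / h) / θ ^ (2 * k) * θ ^ l * (nφ H y * nφ H y / vol H) := by
          have : θ ^ l = θ ^ (l - 2 * k) * θ ^ (2 * k) := by
            rw [← pow_add]
            congr 1
            omega
          rw [this]
          field_simp
  · intro l hl x y
    have h1 := hgood'.walks hk hh hK hm (l := l) (by omega) (hθl l hl) x y
    have h2 : ({p : H.Walk x y | p.length = l}.ncard : ℝ) = Pool.Agent.J4.H75.GF.N H l x y := by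
      unfold Pool.Agent.J4.H75.GF.N
      rw [← Set.ncard_coe_finset, SimpleGraph.coe_finsetWalkLength_eq]
    rw [h2]
    refine (hpow l hl).trans (le_trans ?_ h1)
    have : q ≤ h / (2 * K) := by
      rw [hq]
      apply div_le_div_of_nonneg_left hh.le (by positivity)
      linarith
    gcongr
  · intro l M hl hN S hS x y hxy hx hy
    have hDge : D₀ l M ≤ D := by
      have h1 : D₀ l M ^ k / δ₂ ≤ n := by
        refine (Nat.le_ceil _).trans ?_
        rw [hnd]
        exact_mod_cast hN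
      rw [div_le_iff₀ hδ₂0] at h1
      have h2 : D₀ l M ^ k ≤ D ^ k := by
        rw [hDk]
        linarith
      exact le_of_pow_le_pow_left₀ (by omega) hD0.le h2
    have h1 := hgood'.paths (M := M) hk hh hK hm (l := l) (by omega) (hθl l hl)
      (by
        have h3 : D₀ l M * (q * h ^ l) ≤ D * (q * h ^ l) :=
          mul_le_mul_of_nonneg_right hDge (by positivity)
        have h4 : D₀ l M * (q * h ^ l) =
            (((l : ℝ) + 1) ^ 2 + M * ((l : ℝ) + 1)) * (4 ^ k * K ^ (l - k - 1)) := by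
          show _ / (q * h ^ l) * (q * h ^ l) = _
          field_simp
        rw [h4] at h3
        refine h3.trans (le_of_eq ?_)
        ring) hxy S hS hx hy
    refine (hpow l hl).trans (h1.trans (le_of_eq ?_))
    rw [← Set.ncard_coe_finset]
    congr 2
    ext p
    rw [Finset.coe_filter, Set.mem_ofPred_eq, Set.mem_ofPred_eq, SimpleGraph.mem_finsetWalkLength_iff]
    tauto

/-- The bipartite form, for all graphs with many edges. -/
theorem bipartite_piece_theorem {k : ℕ} (hk : 1 ≤ k) {c : ℝ} (hc : 0 < c) :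
    ∃ (δ K C θ : ℝ) (l₀ : ℕ) (N : ℕ → ℕ → ℕ), 0 < δ ∧ δ ≤ 1 ∧ 0 < θ ∧ θ < 1 ∧ 2 ≤ l₀ ∧
      ∀ (V : Type) [Fintype V] (G : SimpleGraph V), ((2 * k : ℕ) : ℕ∞) < G.egirth →
        1 ≤ Fintype.card V →
        c * (Fintype.card V : ℝ) ^ (1 + 1 / (k : ℝ)) ≤ (G.edgeSet.ncard : ℝ) →
        ∃ (m : ℕ) (H : SimpleGraph (Fin m)) (σ : Fin m → Bool), 0 < m ∧
          δ * Fintype.card V ≤ m ∧ H.IsContained G ∧
          BipartitePiece k δ K C θ l₀ N (Fintype.card V) H σ := by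
  obtain ⟨δ₁, h, K₁, hδ₁, hh, hK₁, hmain⟩ := exists_goodB hk hc
  have hkpos : (0 : ℝ) < k := by exact_mod_cast hk
  have hk1 : (1 : ℝ) ≤ k := by exact_mod_cast hk
  set K : ℝ := max K₁ h with hKd
  have hK : 0 < K := lt_of_lt_of_le hK₁ (le_max_left _ _)
  have hhK : h ≤ K := le_max_right _ _
  set θ : ℝ := 1 - h ^ 2 / (2 * K ^ 2) with hθd
  have hθ1 : θ < 1 := by
    have : 0 < h ^ 2 / (2 * K ^ 2) := by positivity
    rw [hθd]; linarith
  have hθ0 : 0 < θ := by
    have : h ^ 2 / (2 * K ^ 2) ≤ 1 / 2 := by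
      rw [div_le_div_iff₀ (by positivity) (by norm_num)]
      nlinarith
    rw [hθd]; linarith
  set B : ℝ := (4 * K / h ^ 2) ^ k with hB
  have hB0 : 0 < B := by positivity
  obtain ⟨n₁, hn₁⟩ := exists_pow_lt_of_lt_one (y := θ) (x := h / (2 * K) / B) (by positivity) hθ1
  set l₀ : ℕ := 4 * k + n₁ with hl₀
  set δ₂ : ℝ := min δ₁ 1 with hδ₂
  have hδ₂0 : 0 < δ₂ := lt_min hδ₁ one_pos
  have hδ₂1 : δ₂ ≤ 1 := min_le_right _ _
  set h₁ : ℝ := min h 1 with hh₁
  have hh₁0 : 0 < h₁ := lt_min hh one_pos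
  have hh₁1 : h₁ ≤ 1 := min_le_right _ _
  have hh₁h : h₁ ≤ h := min_le_left _ _
  set q : ℝ := h / (4 * K) with hq
  have hq0 : 0 < q := by positivity
  have hq1 : q ≤ 1 := by
    rw [hq, div_le_one (by positivity)]
    linarith
  set δ : ℝ := q * (h₁ * δ₂) with hδ
  have hδ0 : 0 < δ := by positivity
  have hhδ : h₁ * δ₂ ≤ 1 := by nlinarith
  have hδ1 : δ ≤ 1 := by nlinarith
  have hδδ₂ : δ ≤ δ₂ := by
    calc δ = q * h₁ * δ₂ := by rw [hδ]; ring
      _ ≤ 1 * δ₂ := by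
          apply mul_le_mul_of_nonneg_right _ hδ₂0.le
          nlinarith
      _ = δ₂ := one_mul _
  have hδh : δ ≤ h := by
    calc δ = q * δ₂ * h₁ := by rw [hδ]; ring
      _ ≤ 1 * h₁ := by
          apply mul_le_mul_of_nonneg_right _ hh₁0.le
          nlinarith
      _ ≤ h := by linarith
  let D₀ : ℕ → ℕ → ℝ := fun l M =>
    (((l : ℝ) + 1) ^ 2 + M * ((l : ℝ) + 1)) * (4 ^ k * K ^ (l - k - 1)) / (q * h ^ l)
  refine ⟨δ, K, B * (K / h) / θ ^ (2 * k), θ, l₀, fun l M => ⌈D₀ l M ^ k / δ₂⌉₊, hδ0, hδ1, hθ0, hθ1,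
    by omega, ?_⟩
  intro V _ G hg hn he
  rw [egirth_iff] at hg
  obtain ⟨m, H, hdec, σ, hm, hsize, hHG, hgood⟩ := hmain V G hg hn he
  have hm0 : (0 : ℝ) < m := by exact_mod_cast hm
  set D : ℝ := (m : ℝ) ^ (1 / (k : ℝ)) with hD
  have hD0 : 0 < D := Real.rpow_pos_of_pos hm0 _
  have hgood' : GoodB k h K H σ := by
    refine ⟨hgood.girth, hgood.proper, fun x => (hgood.deg_le x).trans ?_, hgood.deg_ge,
      hgood.exp⟩
    exact mul_le_mul_of_nonneg_right (le_max_left _ _) hD0.le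
  set n : ℝ := (Fintype.card V : ℝ) with hnd
  have hn1 : (1 : ℝ) ≤ n := by rw [hnd]; exact_mod_cast hn
  have hn0 : 0 < n := by linarith
  have hsize₂ : δ₂ * n ≤ m := le_trans (mul_le_mul_of_nonneg_right (min_le_left _ _) hn0.le) hsize
  have hd' : ∀ x, 0 < H.degree x := by
    intro x
    have : (0 : ℝ) < H.degree x := lt_of_lt_of_le (by positivity) (hgood'.deg_ge x)
    exact_mod_cast this
  have hne : Nonempty (Fin m) := ⟨⟨0, hm⟩⟩
  have hDk : D ^ k = m := by
    rw [hD, ← Real.rpow_natCast, ← Real.rpow_mul hm0.le]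
    have : (1 / (k : ℝ)) * (k : ℝ) = 1 := by field_simp
    rw [this, Real.rpow_one]
  -- the condition on `l`
  have hθl : ∀ l, l₀ ≤ l → θ ^ (l - 2 * k) * B ≤ h / (2 * K) := by
    intro l hl
    rw [← le_div_iff₀ hB0]
    refine le_trans ?_ hn₁.le
    exact pow_le_pow_of_le_one hθ0.le hθ1.le (by omega)
  -- powers of `D`
  have hpow : ∀ l, l₀ ≤ l → δ ^ l * n ^ ((l : ℝ) / k - 1) ≤ q * h ^ l * D ^ (l - k) := by
    intro l hl
    have hkl : k ≤ l := by omega
    have hl1 : 1 ≤ l := by omega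
    have hkl' : (k : ℝ) ≤ l := by exact_mod_cast hkl
    have he0 : 0 ≤ (l : ℝ) / k - 1 := by
      rw [sub_nonneg, le_div_iff₀ hkpos]
      linarith
    have hel : (l : ℝ) / k - 1 ≤ l := by
      have : (l : ℝ) / k ≤ l := div_le_self (Nat.cast_nonneg _) hk1
      linarith
    have h1 : D ^ (l - k) = (m : ℝ) ^ ((l : ℝ) / k - 1) := by
      rw [hD, ← Real.rpow_natCast, ← Real.rpow_mul hm0.le, Nat.cast_sub hkl]
      congr 1
      field_simp
    have h2 : δ₂ ^ l * n ^ ((l : ℝ) / k - 1) ≤ D ^ (l - k) := by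
      rw [h1]
      calc δ₂ ^ l * n ^ ((l : ℝ) / k - 1)
          ≤ δ₂ ^ ((l : ℝ) / k - 1) * n ^ ((l : ℝ) / k - 1) := by
            apply mul_le_mul_of_nonneg_right _ (by positivity)
            rw [← Real.rpow_natCast]
            exact Real.rpow_le_rpow_of_exponent_ge hδ₂0 hδ₂1 hel
        _ = (δ₂ * n) ^ ((l : ℝ) / k - 1) := (Real.mul_rpow hδ₂0.le hn0.le).symm
        _ ≤ _ := Real.rpow_le_rpow (by positivity) hsize₂ he0
    have h3 : δ ^ l ≤ q * (h ^ l * δ₂ ^ l) := by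
      rw [hδ, mul_pow, mul_pow]
      apply mul_le_mul
      · calc q ^ l ≤ q ^ 1 := pow_le_pow_of_le_one hq0.le hq1 hl1
          _ = q := pow_one q
      · exact mul_le_mul_of_nonneg_right (pow_le_pow_left₀ hh₁0.le hh₁h l) (by positivity)
      · positivity
      · exact hq0.le
    calc δ ^ l * n ^ ((l : ℝ) / k - 1) ≤ q * (h ^ l * δ₂ ^ l) * n ^ ((l : ℝ) / k - 1) :=
          mul_le_mul_of_nonneg_right h3 (by positivity)
      _ = q * h ^ l * (δ₂ ^ l * n ^ ((l : ℝ) / k - 1)) := by ring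
      _ ≤ _ := mul_le_mul_of_nonneg_left h2 (by positivity)
  refine ⟨m, H, σ, hm, ?_, hHG, ⟨hgood.proper, ?_, ?_, ?_, ?_⟩⟩
  · refine le_trans ?_ hsize₂
    gcongr
  · intro x
    rw [ncard_nbr]
    refine ⟨le_trans ?_ (hgood'.deg_ge x), hgood'.deg_le x⟩
    gcongr
  · intro l hl x y
    rw [step_eq, stat_eq, nT_pow hd']
    have hsg : ∀ z, sign σ z = sg σ z := fun _ => rfl
    rw [hsg, hsg]
    set par : ℝ := 1 + (-1) ^ l * (sg σ x * sg σ y) with hpar
    have h1 := hgood'.mix hk hh hK hm hl x y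
    have hx := nφ_pos hd' x
    have hy := nφ_pos hd' y
    have hv := vol_pos hd'
    have e1 : (nP H ^ l) x y * (nφ H y / nφ H x) - par * (nφ H y * nφ H y / vol H) =
        (nφ H y / nφ H x) * ((nP H ^ l) x y - par * (nφ H x * nφ H y / vol H)) := by
      field_simp
    rw [e1, abs_mul, abs_of_pos (by positivity : 0 < nφ H y / nφ H x)]
    have h2 : h / (K * m) ≤ nφ H x * nφ H y / vol H := by
      apply hgood'.stat_ge hh hK hm
      have a1 : √(h * D) ≤ nφ H x := Real.sqrt_le_sqrt (hgood'.deg_ge x)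
      have a2 : √(h * D) ≤ nφ H y := Real.sqrt_le_sqrt (hgood'.deg_ge y)
      calc h * D = √(h * D) * √(h * D) := (Real.mul_self_sqrt (by positivity)).symm
        _ ≤ _ := mul_le_mul a1 a2 (Real.sqrt_nonneg _) ((Real.sqrt_nonneg _).trans a1)
    calc nφ H y / nφ H x * |(nP H ^ l) x y - par * (nφ H x * nφ H y / vol H)|
        ≤ nφ H y / nφ H x * (θ ^ (l - 2 * k) * (B / m)) :=
          mul_le_mul_of_nonneg_left h1 (by positivity)
      _ = nφ H y / nφ H x * (B * (K / h)) * θ ^ (l - 2 * k) * (h / (K * m)) := by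
          field_simp
      _ ≤ nφ H y / nφ H x * (B * (K / h)) * θ ^ (l - 2 * k) * (nφ H x * nφ H y / vol H) :=
          mul_le_mul_of_nonneg_left h2 (by positivity)
      _ = B * (K / h) * θ ^ (l - 2 * k) * (nφ H y * nφ H y / vol H) := by
          field_simp
      _ = B * (K / h) / θ ^ (2 * k) * θ ^ l * (nφ H y * nφ H y / vol H) := by
          have : θ ^ l = θ ^ (l - 2 * k) * θ ^ (2 * k) := by
            rw [← pow_add]
            congr 1
            omega
          rw [this]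
          field_simp
  · intro l hl x y hpar
    have h1 := hgood'.walks hk hh hK hm (l := l) (by omega) (hθl l hl) hpar
    have h2 : ({p : H.Walk x y | p.length = l}.ncard : ℝ) = Pool.Agent.J4.H75.GF.N H l x y := by
      unfold Pool.Agent.J4.H75.GF.N
      rw [← Set.ncard_coe_finset, SimpleGraph.coe_finsetWalkLength_eq]
    rw [h2]
    refine (hpow l hl).trans (le_trans ?_ h1)
    have : q ≤ h / (2 * K) := by
      rw [hq]
      apply div_le_div_of_nonneg_left hh.le (by positivity)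
      linarith
    gcongr
  · intro l M hl hN S hS x y hpar hxy hx hy
    have hDge : D₀ l M ≤ D := by
      have h1 : D₀ l M ^ k / δ₂ ≤ n := by
        refine (Nat.le_ceil _).trans ?_
        rw [hnd]
        exact_mod_cast hN
      rw [div_le_iff₀ hδ₂0] at h1
      have h2 : D₀ l M ^ k ≤ D ^ k := by
        rw [hDk]
        linarith
      exact le_of_pow_le_pow_left₀ (by omega) hD0.le h2
    have h1 := hgood'.paths (M := M) hk hh hK hm (l := l) (by omega) (hθl l hl)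
      (by
        have h3 : D₀ l M * (q * h ^ l) ≤ D * (q * h ^ l) :=
          mul_le_mul_of_nonneg_right hDge (by positivity)
        have h4 : D₀ l M * (q * h ^ l) =
            (((l : ℝ) + 1) ^ 2 + M * ((l : ℝ) + 1)) * (4 ^ k * K ^ (l - k - 1)) := by
          show _ / (q * h ^ l) * (q * h ^ l) = _
          field_simp
        rw [h4] at h3
        refine h3.trans (le_of_eq ?_)
        ring) hpar hxy S hS hx hy
    refine (hpow l hl).trans (h1.trans (le_of_eq ?_))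
    rw [← Set.ncard_coe_finset]
    congr 2
    ext p
    rw [Finset.coe_filter, Set.mem_ofPred_eq, Set.mem_ofPred_eq, SimpleGraph.mem_finsetWalkLength_iff]
    tauto

/-- The girth conjecture in terms of graphs with bounded mixing time. -/
theorem girth_iff {k : ℕ} (hk : 1 ≤ k) : GirthConjecture k ↔
    ∃ (δ K C θ : ℝ) (l₀ : ℕ) (N : ℕ → ℕ → ℕ) (n₀ : ℕ), 0 < δ ∧ 0 < θ ∧ θ < 1 ∧ ∀ n ≥ n₀,
      ∃ (m : ℕ) (H : SimpleGraph (Fin m)) (σ : Fin m → Bool), δ * n ≤ m ∧ m ≤ n ∧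
        ((2 * k : ℕ) : ℕ∞) < H.egirth ∧ BipartitePiece k δ K C θ l₀ N n H σ := by
  constructor
  · rintro ⟨c, hc, N₁, hN₁⟩
    obtain ⟨δ, K, C, θ, l₀, N, hδ0, hδ1, hθ0, hθ1, hl₀, hmain⟩ := bipartite_piece_theorem hk hc
    refine ⟨δ, K, C, θ, l₀, N, N₁ + 1, hδ0, hθ0, hθ1, fun n hn => ?_⟩
    obtain ⟨G, hG, hE⟩ := hN₁ n (by omega)
    obtain ⟨m, H, σ, hm, hsize, hHG, hH⟩ := hmain (Fin n) G hG
      (by rw [Fintype.card_fin]; omega) (by rw [Fintype.card_fin]; exact hE)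
    rw [Fintype.card_fin] at hsize hH
    refine ⟨m, H, σ, hsize, ?_, lt_of_lt_of_le hG (SimpleGraph.IsContained.egirth_le hHG), hH⟩
    obtain ⟨f⟩ := hHG
    have := Fintype.card_le_of_injective f f.injective
    simpa using this
  · rintro ⟨ε, K, C, θ, l₀, N', N, hε, -, -, h⟩
    have hkpos : (0 : ℝ) < k := by exact_mod_cast hk
    have hkk : (k : ℝ) * (1 / (k : ℝ)) = 1 := by field_simp
    set C1 : ℝ := N + ε⁻¹ ^ k * ε⁻¹ + 1 with hC1
    have hC1' : 0 < C1 := by positivity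
    refine girthConj_of_almostRegularForm hk ⟨max C1 (|K| * C1 ^ (1 / (k : ℝ))), fun d hd => ?_⟩
    have hd1 : (1 : ℝ) ≤ d := by exact_mod_cast hd
    have hdk : (1 : ℝ) ≤ (d : ℝ) ^ k := one_le_pow₀ hd1
    set t : ℝ := (ε⁻¹ * d) ^ k * ε⁻¹ with ht
    have ht0 : 0 < t := by positivity
    set n : ℕ := max N ⌈t⌉₊ with hn
    have htn : t ≤ n := by
      refine (Nat.le_ceil t).trans ?_
      exact_mod_cast le_max_right _ _
    have hnC : (n : ℝ) ≤ C1 * (d : ℝ) ^ k := by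
      have h1 : (⌈t⌉₊ : ℝ) < t + 1 := Nat.ceil_lt_add_one ht0.le
      have h2 : (n : ℝ) ≤ N + ⌈t⌉₊ := by
        rw [hn]
        exact_mod_cast max_le (by omega) (by omega)
      have h3 : t = ε⁻¹ ^ k * ε⁻¹ * (d : ℝ) ^ k := by rw [ht, mul_pow]; ring
      have h4 : (N : ℝ) ≤ N * (d : ℝ) ^ k := by
        have : (0 : ℝ) ≤ N := Nat.cast_nonneg _
        nlinarith
      calc (n : ℝ) ≤ N + (t + 1) := by linarith
        _ ≤ N * (d : ℝ) ^ k + (ε⁻¹ ^ k * ε⁻¹ * (d : ℝ) ^ k + (d : ℝ) ^ k) := by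
            rw [h3]; linarith
        _ = C1 * (d : ℝ) ^ k := by rw [hC1]; ring
    obtain ⟨m, H, σ, hsize, hmn, hg, hH⟩ := h n (le_max_left _ _)
    have hmn' : (m : ℝ) ≤ n := by exact_mod_cast hmn
    have hmt : (ε⁻¹ * d) ^ k ≤ m := by
      calc (ε⁻¹ * d) ^ k = ε * t := by rw [ht]; field_simp
        _ ≤ ε * n := mul_le_mul_of_nonneg_left htn hε.le
        _ ≤ m := hsize
    have hm0 : (0 : ℝ) < m := lt_of_lt_of_le (by positivity) hmt
    have hroot : ε⁻¹ * d ≤ (m : ℝ) ^ (1 / (k : ℝ)) := by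
      calc ε⁻¹ * d = ((ε⁻¹ * d) ^ k) ^ (1 / (k : ℝ)) := by
            rw [← Real.rpow_natCast, ← Real.rpow_mul (by positivity), hkk, Real.rpow_one]
        _ ≤ _ := Real.rpow_le_rpow (by positivity) hmt (by positivity)
    have hroot2 : (m : ℝ) ^ (1 / (k : ℝ)) ≤ C1 ^ (1 / (k : ℝ)) * d := by
      calc (m : ℝ) ^ (1 / (k : ℝ)) ≤ (C1 * (d : ℝ) ^ k) ^ (1 / (k : ℝ)) :=
            Real.rpow_le_rpow hm0.le (hmn'.trans hnC) (by positivity)
        _ = C1 ^ (1 / (k : ℝ)) * d := by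
            rw [Real.mul_rpow hC1'.le (by positivity), ← Real.rpow_natCast (d : ℝ),
              ← Real.rpow_mul (by positivity), hkk, Real.rpow_one]
    refine ⟨m, H, by exact_mod_cast hm0, ?_, hg, fun x => ⟨?_, ?_⟩⟩
    · refine (hmn'.trans hnC).trans ?_
      exact mul_le_mul_of_nonneg_right (le_max_left _ _) (by positivity)
    · refine le_trans ?_ (hH.degree x).1
      calc (d : ℝ) = ε * (ε⁻¹ * d) := by field_simp
        _ ≤ _ := mul_le_mul_of_nonneg_left hroot hε.le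
    · calc ((H.neighborSet x).ncard : ℝ) ≤ K * (m : ℝ) ^ (1 / (k : ℝ)) := (hH.degree x).2
        _ ≤ |K| * (m : ℝ) ^ (1 / (k : ℝ)) :=
            mul_le_mul_of_nonneg_right (le_abs_self K) (by positivity)
        _ ≤ |K| * (C1 ^ (1 / (k : ℝ)) * d) := mul_le_mul_of_nonneg_left hroot2 (abs_nonneg K)
        _ = |K| * C1 ^ (1 / (k : ℝ)) * d := by ring
        _ ≤ _ := mul_le_mul_of_nonneg_right (le_max_right _ _) (by positivity)

/-- Subdivisions with prescribed lengths. -/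
theorem subdivisions {k : ℕ} (hk : 1 ≤ k) {ε : ℝ} (hε : 0 < ε) : ∃ l₀ : ℕ, ∀ r L : ℕ, ∃ n₀ : ℕ,
    ∀ (V : Type) [Fintype V] (G : SimpleGraph V), ((2 * k : ℕ) : ℕ∞) < G.egirth →
      n₀ ≤ Fintype.card V →
      ¬ NearlyBipartite G (ε * (Fintype.card V : ℝ) ^ (1 + 1 / (k : ℝ))) →
      ∀ len : Fin r → Fin r → ℕ, (∀ i j, i < j → l₀ ≤ len i j ∧ len i j ≤ L) →
        ContainsSubdivision G r len := by
  obtain ⟨δ, K, C, θ, l₀, N, hδ0, hδ1, hθ0, hθ1, hl₀, hmain⟩ := piece_theorem hk hε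
  refine ⟨l₀, fun r L => ?_⟩
  set L' : ℕ := L + l₀ with hL'
  set M : ℕ := r + r * r * (L' + 1) with hM
  refine ⟨∑ l ∈ range (L' + 1), N l M + ⌈(r : ℝ) / δ⌉₊ + 1, ?_⟩
  intro V _ G hg hn hnb len hlen
  obtain ⟨m, H, hm, hsize, ⟨f⟩, hH⟩ := hmain V G hg (by omega) hnb
  have hn0 : (0 : ℝ) < Fintype.card V := by
    have : 0 < Fintype.card V := by omega
    exact_mod_cast this
  have hrm : r ≤ m := by
    have h1 : (r : ℝ) / δ ≤ Fintype.card V := by
      refine (Nat.le_ceil _).trans ?_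
      have : ⌈(r : ℝ) / δ⌉₊ ≤ Fintype.card V := by omega
      exact_mod_cast this
    rw [div_le_iff₀ hδ0] at h1
    have h2 : (r : ℝ) ≤ m := by linarith
    exact_mod_cast h2
  set φ : Fin r → Fin m := Fin.castLE hrm with hφd
  have hφ : Function.Injective φ := Fin.castLE_injective hrm
  set len' : Fin r × Fin r → ℕ := fun e => if e.1 < e.2 then len e.1 e.2 else l₀ with hlen'
  have hlen1 : ∀ e, len' e ≤ L' := by
    intro e
    simp only [hlen']
    split_ifs with h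
    · have := (hlen e.1 e.2 h).2
      omega
    · omega
  have hlen2 : ∀ e, l₀ ≤ len' e := by
    intro e
    simp only [hlen']
    split_ifs with h
    · exact (hlen e.1 e.2 h).1
    · exact le_rfl
  obtain ⟨P, hP⟩ := greedy H r L' φ hφ len' hlen1 (by
    intro e he S hS h1 h2
    have hN : N (len' e) M ≤ Fintype.card V := by
      have h3 : N (len' e) M ≤ ∑ l ∈ range (L' + 1), N l M :=
        single_le_sum (f := fun l => N l M) (fun _ _ => Nat.zero_le _)
          (mem_range.2 (Nat.lt_succ_of_le (hlen1 e)))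
      omega
    have h3 := hH.paths (len' e) M (hlen2 e) hN S hS (φ e.1) (φ e.2) (fun h => he (hφ h)) h1 h2
    have h4 : 0 < δ ^ (len' e) * (Fintype.card V : ℝ) ^ (((len' e : ℕ) : ℝ) / k - 1) := by
      positivity
    have h5 : (0 : ℝ) < ({p : H.Walk (φ e.1) (φ e.2) | p.IsPath ∧ p.length = len' e ∧
        ∀ z ∈ S, z ∉ p.support}.ncard : ℝ) := lt_of_lt_of_le h4 h3
    have h6 : {p : H.Walk (φ e.1) (φ e.2) | p.IsPath ∧ p.length = len' e ∧
        ∀ z ∈ S, z ∉ p.support}.ncard ≠ 0 := by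
      have : 0 < {p : H.Walk (φ e.1) (φ e.2) | p.IsPath ∧ p.length = len' e ∧
        ∀ z ∈ S, z ∉ p.support}.ncard := by exact_mod_cast h5
      omega
    exact Set.nonempty_of_ncard_ne_zero h6)
  refine ⟨f ∘ φ, fun i j => (P (i, j)).map f.toHom, f.injective.comp hφ, ?_⟩
  intro i j hij
  obtain ⟨h1, h2, h3, h4⟩ := hP (i, j) hij
  refine ⟨SimpleGraph.Walk.IsPath.map f.injective h1, ?_, ?_, ?_⟩
  · rw [SimpleGraph.Walk.length_map, h2]
    simp [hlen', hij]
  · intro t ht1 ht2 ht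
    rw [SimpleGraph.Walk.support_map, List.mem_map] at ht
    obtain ⟨z, hz, hzt⟩ := ht
    have : z = φ t := f.injective hzt
    rw [this] at hz
    exact h3 t ht1 ht2 hz
  · intro i' j' hij' hne z hz hz'
    rw [SimpleGraph.Walk.support_map, List.mem_map] at hz hz'
    obtain ⟨w, hw, hwz⟩ := hz
    obtain ⟨w', hw', hwz'⟩ := hz'
    have hww : w' = w := f.injective (hwz'.trans hwz.symm)
    rw [hww] at hw'
    obtain ⟨t, ht⟩ := h4 (i', j') hij' hne w hw hw'
    exact ⟨t, by rw [← hwz, ht]; rfl⟩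

/-- Subdivisions with prescribed even lengths in all graphs with many edges. -/
theorem even_subdivisions {k : ℕ} (hk : 1 ≤ k) {c : ℝ} (hc : 0 < c) : ∃ l₀ : ℕ, ∀ r L : ℕ, ∃ n₀ : ℕ,
    ∀ (V : Type) [Fintype V] (G : SimpleGraph V), ((2 * k : ℕ) : ℕ∞) < G.egirth →
      n₀ ≤ Fintype.card V →
      c * (Fintype.card V : ℝ) ^ (1 + 1 / (k : ℝ)) ≤ (G.edgeSet.ncard : ℝ) →
      ∀ len : Fin r → Fin r → ℕ, (∀ i j, i < j → Even (len i j) ∧ l₀ ≤ len i j ∧ len i j ≤ L) →
        ContainsSubdivision G r len := by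
  obtain ⟨δ, K, C, θ, l₀, N, hδ0, hδ1, hθ0, hθ1, hl₀, hmain⟩ := bipartite_piece_theorem hk hc
  refine ⟨l₀, fun r L => ?_⟩
  set L' : ℕ := L + 2 * l₀ with hL'
  set M : ℕ := r + r * r * (L' + 1) with hM
  refine ⟨∑ l ∈ range (L' + 1), N l M + ⌈((2 * r : ℕ) : ℝ) / δ⌉₊ + 1, ?_⟩
  intro V _ G hg hn he len hlen
  obtain ⟨m, H, σ, hm, hsize, ⟨f⟩, hH⟩ := hmain V G hg (by omega) he
  have hn0 : (0 : ℝ) < Fintype.card V := by
    have : 0 < Fintype.card V := by omega
    exact_mod_cast this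
  have hrm : 2 * r ≤ m := by
    have h1 : ((2 * r : ℕ) : ℝ) / δ ≤ Fintype.card V := by
      refine (Nat.le_ceil _).trans ?_
      have : ⌈((2 * r : ℕ) : ℝ) / δ⌉₊ ≤ Fintype.card V := by omega
      exact_mod_cast this
    rw [div_le_iff₀ hδ0] at h1
    have h2 : ((2 * r : ℕ) : ℝ) ≤ m := by linarith
    exact_mod_cast h2
  obtain ⟨col, hcol⟩ : ∃ col : Bool, r ≤ (univ.filter fun x : Fin m => σ x = col).card := by
    by_contra hcon
    push Not at hcon
    have h1 := hcon true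
    have h2 := hcon false
    have h3 : (univ.filter fun x : Fin m => σ x = true).card +
        (univ.filter fun x : Fin m => σ x = false).card = m := by
      have h4 := card_filter_add_card_filter_not (s := (univ : Finset (Fin m)))
        (fun x => σ x = true)
      rw [card_univ, Fintype.card_fin] at h4
      refine Eq.trans ?_ h4
      congr 2
      ext x
      simp
    omega
  obtain ⟨φ, hφ, hφc⟩ : ∃ φ : Fin r → Fin m, Function.Injective φ ∧ ∀ i, σ (φ i) = col := by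
    obtain ⟨T, hT, hTr⟩ := exists_subset_card_eq hcol
    refine ⟨fun i => T.orderEmbOfFin hTr i, (T.orderEmbOfFin hTr).injective, fun i => ?_⟩
    have := hT (T.orderEmbOfFin_mem hTr i)
    rw [mem_filter] at this
    exact this.2
  set len' : Fin r × Fin r → ℕ := fun e => if e.1 < e.2 then len e.1 e.2 else 2 * l₀ with hlen'
  have hlen1 : ∀ e, len' e ≤ L' := by
    intro e
    simp only [hlen']
    split_ifs with h
    · have := (hlen e.1 e.2 h).2.2
      omega
    · omega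
  have hlen2 : ∀ e, l₀ ≤ len' e := by
    intro e
    simp only [hlen']
    split_ifs with h
    · exact (hlen e.1 e.2 h).2.1
    · omega
  have hlen3 : ∀ e, Even (len' e) := by
    intro e
    simp only [hlen']
    split_ifs with h
    · exact (hlen e.1 e.2 h).1
    · exact even_two_mul l₀
  obtain ⟨P, hP⟩ := greedy H r L' φ hφ len' hlen1 (by
    intro e he S hS h1 h2
    have hN : N (len' e) M ≤ Fintype.card V := by
      have h3 : N (len' e) M ≤ ∑ l ∈ range (L' + 1), N l M :=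
        single_le_sum (f := fun l => N l M) (fun _ _ => Nat.zero_le _)
          (mem_range.2 (Nat.lt_succ_of_le (hlen1 e)))
      omega
    have h3 := hH.paths (len' e) M (hlen2 e) hN S hS (φ e.1) (φ e.2)
      ⟨fun _ => by rw [hφc, hφc], fun _ => hlen3 e⟩ (fun h => he (hφ h)) h1 h2
    have h4 : 0 < δ ^ (len' e) * (Fintype.card V : ℝ) ^ (((len' e : ℕ) : ℝ) / k - 1) := by
      positivity
    have h5 : (0 : ℝ) < ({p : H.Walk (φ e.1) (φ e.2) | p.IsPath ∧ p.length = len' e ∧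
        ∀ z ∈ S, z ∉ p.support}.ncard : ℝ) := lt_of_lt_of_le h4 h3
    have h6 : {p : H.Walk (φ e.1) (φ e.2) | p.IsPath ∧ p.length = len' e ∧
        ∀ z ∈ S, z ∉ p.support}.ncard ≠ 0 := by
      have : 0 < {p : H.Walk (φ e.1) (φ e.2) | p.IsPath ∧ p.length = len' e ∧
        ∀ z ∈ S, z ∉ p.support}.ncard := by exact_mod_cast h5
      omega
    exact Set.nonempty_of_ncard_ne_zero h6)
  refine ⟨f ∘ φ, fun i j => (P (i, j)).map f.toHom, f.injective.comp hφ, ?_⟩
  intro i j hij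
  obtain ⟨h1, h2, h3, h4⟩ := hP (i, j) hij
  refine ⟨SimpleGraph.Walk.IsPath.map f.injective h1, ?_, ?_, ?_⟩
  · rw [SimpleGraph.Walk.length_map, h2]
    simp [hlen', hij]
  · intro t ht1 ht2 ht
    rw [SimpleGraph.Walk.support_map, List.mem_map] at ht
    obtain ⟨z, hz, hzt⟩ := ht
    have : z = φ t := f.injective hzt
    rw [this] at hz
    exact h3 t ht1 ht2 hz
  · intro i' j' hij' hne z hz hz'
    rw [SimpleGraph.Walk.support_map, List.mem_map] at hz hz'
    obtain ⟨w, hw, hwz⟩ := hz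
    obtain ⟨w', hw', hwz'⟩ := hz'
    have hww : w' = w := f.injective (hwz'.trans hwz.symm)
    rw [hww] at hw'
    obtain ⟨t, ht⟩ := h4 (i', j') hij' hne w hw hw'
    exact ⟨t, by rw [← hwz, ht]; rfl⟩

/-- Many cycles of all lengths `≥ l₀`. -/
theorem cycles {k : ℕ} (hk : 1 ≤ k) {ε : ℝ} (hε : 0 < ε) : ∃ (l₀ : ℕ) (c : ℝ), 0 < c ∧
    ∀ l, l₀ ≤ l → ∃ n₀ : ℕ, ∀ (V : Type) [Fintype V] (G : SimpleGraph V),
      ((2 * k : ℕ) : ℕ∞) < G.egirth → n₀ ≤ Fintype.card V →
      ¬ NearlyBipartite G (ε * (Fintype.card V : ℝ) ^ (1 + 1 / (k : ℝ))) →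
      c ^ l * (Fintype.card V : ℝ) ^ ((l : ℝ) / k) ≤
        ({p : Σ x, G.Walk x x | p.2.IsCycle ∧ p.2.length = l}.ncard : ℝ) := by
  obtain ⟨δ, K, C, θ, l₀, N, hδ0, hδ1, hθ0, hθ1, hl₀, hmain⟩ := piece_theorem hk hε
  have hkpos : (0 : ℝ) < k := by exact_mod_cast hk
  have hk1 : (1 : ℝ) ≤ k := by exact_mod_cast hk
  refine ⟨l₀ + 1, δ ^ 3, by positivity, fun l hl => ⟨N (l - 1) 0 + 1, ?_⟩⟩
  intro V _ G hg hn hnb
  classical
  obtain ⟨m, H, hm, hsize, ⟨f⟩, hH⟩ := hmain V G hg (by omega) hnb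
  set n : ℝ := (Fintype.card V : ℝ) with hnd
  have hn0 : 0 < n := by
    have : 0 < Fintype.card V := by omega
    rw [hnd]
    exact_mod_cast this
  have hm0 : (0 : ℝ) < m := by exact_mod_cast hm
  obtain ⟨j, rfl⟩ : ∃ j, l = j + 1 := ⟨l - 1, by omega⟩
  have hj : l₀ ≤ j := by omega
  rw [Nat.add_sub_cancel] at hn
  have h1 := cycles_ge H f (l := j) (by omega) (P := δ ^ j * n ^ ((j : ℝ) / k - 1)) (by
    intro x y hxy
    have h2 := hH.paths j 0 hj (by omega) ∅ (by simp) x y hxy.ne (by simp) (by simp)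
    refine h2.trans (le_of_eq ?_)
    rw [← Set.ncard_coe_finset]
    congr 2
    ext p
    rw [Finset.coe_filter, Set.mem_ofPred_eq, Set.mem_ofPred_eq,
      SimpleGraph.mem_finsetWalkLength_iff]
    simp only [notMem_empty, false_imp_iff, implies_true, and_true]
    tauto)
  refine le_trans ?_ h1
  -- the sum of the degrees
  have h2 : δ ^ 3 * n ^ (1 + 1 / (k : ℝ)) ≤ ∑ x, (H.degree x : ℝ) := by
    have e1 : ∀ x : Fin m, δ * (m : ℝ) ^ (1 / (k : ℝ)) ≤ H.degree x := by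
      intro x
      have := (hH.degree x).1
      rwa [ncard_nbr] at this
    have e2 : (m : ℝ) * (δ * (m : ℝ) ^ (1 / (k : ℝ))) ≤ ∑ x, (H.degree x : ℝ) := by
      calc (m : ℝ) * (δ * (m : ℝ) ^ (1 / (k : ℝ))) =
          ∑ _x : Fin m, δ * (m : ℝ) ^ (1 / (k : ℝ)) := by
            rw [sum_const, card_univ, Fintype.card_fin, nsmul_eq_mul]
        _ ≤ _ := sum_le_sum fun x _ => e1 x
    refine le_trans ?_ e2
    have hk2 : 1 + 1 / (k : ℝ) ≤ 2 := by
      have : 1 / (k : ℝ) ≤ 1 := by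
        rw [div_le_one hkpos]
        exact hk1
      linarith
    calc δ ^ 3 * n ^ (1 + 1 / (k : ℝ)) = δ * (δ ^ (2 : ℝ) * n ^ (1 + 1 / (k : ℝ))) := by
          rw [Real.rpow_two]
          ring
      _ ≤ δ * (δ ^ (1 + 1 / (k : ℝ)) * n ^ (1 + 1 / (k : ℝ))) := by
          apply mul_le_mul_of_nonneg_left _ hδ0.le
          apply mul_le_mul_of_nonneg_right _ (by positivity)
          exact Real.rpow_le_rpow_of_exponent_ge hδ0 hδ1 hk2
      _ = δ * (δ * n) ^ (1 + 1 / (k : ℝ)) := by rw [Real.mul_rpow hδ0.le hn0.le]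
      _ ≤ δ * (m : ℝ) ^ (1 + 1 / (k : ℝ)) := by
          apply mul_le_mul_of_nonneg_left _ hδ0.le
          exact Real.rpow_le_rpow (by positivity) hsize (by positivity)
      _ = (m : ℝ) * (δ * (m : ℝ) ^ (1 / (k : ℝ))) := by
          rw [Real.rpow_add hm0, Real.rpow_one]
          ring
  calc (δ ^ 3) ^ (j + 1) * n ^ (((j + 1 : ℕ) : ℝ) / k)
      ≤ (δ ^ 3 * δ ^ j) * (n ^ (1 + 1 / (k : ℝ)) * n ^ ((j : ℝ) / k - 1)) := by
        apply mul_le_mul
        · rw [← pow_mul, ← pow_add]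
          exact pow_le_pow_of_le_one hδ0.le hδ1 (by omega)
        · rw [← Real.rpow_add hn0]
          apply le_of_eq
          congr 1
          push_cast
          field_simp
          ring
        · positivity
        · positivity
    _ = (δ ^ 3 * n ^ (1 + 1 / (k : ℝ))) * (δ ^ j * n ^ ((j : ℝ) / k - 1)) := by ring
    _ ≤ _ := mul_le_mul_of_nonneg_right h2 (by positivity)

/-- Graphs without cycles of one given length are nearly bipartite. -/
theorem nearly_bipartite {k : ℕ} (hk : 1 ≤ k) {ε : ℝ} (hε : 0 < ε) : ∃ l₀ : ℕ, ∀ l, l₀ ≤ l →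
    ∃ n₀ : ℕ, ∀ (V : Type) [Fintype V] (G : SimpleGraph V),
      ((2 * k : ℕ) : ℕ∞) < G.egirth → n₀ ≤ Fintype.card V →
      (∀ x (p : G.Walk x x), p.IsCycle → p.length ≠ l) →
      NearlyBipartite G (ε * (Fintype.card V : ℝ) ^ (1 + 1 / (k : ℝ))) := by
  obtain ⟨l₀, c, hc, hmain⟩ := cycles hk hε
  refine ⟨l₀, fun l hl => ?_⟩
  obtain ⟨n₀, hn₀⟩ := hmain l hl
  refine ⟨n₀ + 1, ?_⟩
  intro V _ G hg hn hno
  by_contra hnb
  have h1 := hn₀ V G hg (by omega) hnb
  have hn0 : (0 : ℝ) < Fintype.card V := by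
    have : 0 < Fintype.card V := by omega
    exact_mod_cast this
  have h2 : {p : Σ x, G.Walk x x | p.2.IsCycle ∧ p.2.length = l} = ∅ := by
    rw [Set.eq_empty_iff_forall_notMem]
    rintro ⟨x, p⟩ ⟨hp1, hp2⟩
    exact hno x p hp1 hp2
  rw [h2, Set.ncard_empty] at h1
  have h3 : 0 < c ^ l * (Fintype.card V : ℝ) ^ ((l : ℝ) / k) := by positivity
  simp only [Nat.cast_zero] at h1
  linarith

/-- The weak form of the compactness conjecture of Erdős and Simonovits. -/
theorem compactness {k : ℕ} (hk : 1 ≤ k) (hconj : GirthConjecture k) {ε : ℝ} (hε : 0 < ε) :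
    ∃ l₀ : ℕ, ∀ l, l₀ ≤ l → ∃ n₀ : ℕ, ∀ n ≥ n₀, ∀ G : SimpleGraph (Fin n),
      ((2 * k : ℕ) : ℕ∞) < G.egirth → (∀ x (p : G.Walk x x), p.IsCycle → p.length ≠ l) →
      ∃ B : SimpleGraph (Fin n), ((2 * k : ℕ) : ℕ∞) < B.egirth ∧ B.Colorable 2 ∧
        (G.edgeSet.ncard : ℝ) ≤ (1 + ε) * B.edgeSet.ncard := by
  obtain ⟨c, hc, N₁, hN₁⟩ := hconj
  obtain ⟨l₀, hmain⟩ := nearly_bipartite hk (ε := c * ε / 2) (by positivity)
  refine ⟨l₀, fun l hl => ?_⟩
  obtain ⟨n₀, hn₀⟩ := hmain l hl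
  refine ⟨n₀ + N₁, ?_⟩
  intro n hn G hg hno
  obtain ⟨B₀, hB₀, hB₀c, hB₀e⟩ := hn₀ (Fin n) G hg (by rw [Fintype.card_fin]; omega) hno
  obtain ⟨G₁, hG₁, hG₁e⟩ := hN₁ n (by omega)
  obtain ⟨B₁, hB₁, hB₁c, hB₁e⟩ := half_bip G₁
  rw [Fintype.card_fin] at hB₀e
  have hgB₀ : ((2 * k : ℕ) : ℕ∞) < B₀.egirth := by
    rw [egirth_iff] at hg ⊢
    exact no_cycle_mono hB₀ hg
  have hgB₁ : ((2 * k : ℕ) : ℕ∞) < B₁.egirth := by
    rw [egirth_iff] at hG₁ ⊢
    exact no_cycle_mono hB₁ hG₁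
  have key : c / 2 * (n : ℝ) ^ (1 + 1 / (k : ℝ)) ≤ B₁.edgeSet.ncard := by linarith
  rcases le_total (B₀.edgeSet.ncard : ℝ) (B₁.edgeSet.ncard : ℝ) with h | h
  · refine ⟨B₁, hgB₁, hB₁c, ?_⟩
    nlinarith
  · refine ⟨B₀, hgB₀, hB₀c, ?_⟩
    nlinarith

theorem result (k : ℕ) (hk : 1 ≤ k) :
    -- all graphs with many edges: a linear bipartite piece with uniform mixing up to parity
    (∀ c : ℝ, 0 < c →
      ∃ (δ K C θ : ℝ) (l₀ : ℕ) (N : ℕ → ℕ → ℕ), 0 < δ ∧ δ ≤ 1 ∧ 0 < θ ∧ θ < 1 ∧ 2 ≤ l₀ ∧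
      ∀ (V : Type) [Fintype V] (G : SimpleGraph V), ((2 * k : ℕ) : ℕ∞) < G.egirth →
        1 ≤ Fintype.card V →
        c * (Fintype.card V : ℝ) ^ (1 + 1 / (k : ℝ)) ≤ (G.edgeSet.ncard : ℝ) →
        ∃ (m : ℕ) (H : SimpleGraph (Fin m)) (σ : Fin m → Bool), 0 < m ∧
          δ * Fintype.card V ≤ m ∧ H.IsContained G ∧
          BipartitePiece k δ K C θ l₀ N (Fintype.card V) H σ) ∧
    -- the girth conjecture in terms of such graphs
    (GirthConjecture k ↔
      ∃ (δ K C θ : ℝ) (l₀ : ℕ) (N : ℕ → ℕ → ℕ) (n₀ : ℕ), 0 < δ ∧ 0 < θ ∧ θ < 1 ∧ ∀ n ≥ n₀,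
      ∃ (m : ℕ) (H : SimpleGraph (Fin m)) (σ : Fin m → Bool), δ * n ≤ m ∧ m ≤ n ∧
        ((2 * k : ℕ) : ℕ∞) < H.egirth ∧ BipartitePiece k δ K C θ l₀ N n H σ) ∧
    -- subdivisions with prescribed even lengths in all graphs with many edges
    (∀ c : ℝ, 0 < c → ∃ l₀ : ℕ, ∀ r L : ℕ, ∃ n₀ : ℕ, ∀ (V : Type) [Fintype V] (G : SimpleGraph V),
      ((2 * k : ℕ) : ℕ∞) < G.egirth → n₀ ≤ Fintype.card V →
      c * (Fintype.card V : ℝ) ^ (1 + 1 / (k : ℝ)) ≤ (G.edgeSet.ncard : ℝ) →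
      ∀ len : Fin r → Fin r → ℕ, (∀ i j, i < j → Even (len i j) ∧ l₀ ≤ len i j ∧ len i j ≤ L) →
        ContainsSubdivision G r len) ∧
    -- graphs far from bipartite: an induced piece with uniform mixing
    (∀ ε : ℝ, 0 < ε →
      ∃ (δ K C θ : ℝ) (l₀ : ℕ) (N : ℕ → ℕ → ℕ), 0 < δ ∧ δ ≤ 1 ∧ 0 < θ ∧ θ < 1 ∧ 2 ≤ l₀ ∧
      ∀ (V : Type) [Fintype V] (G : SimpleGraph V), ((2 * k : ℕ) : ℕ∞) < G.egirth →
        1 ≤ Fintype.card V →
        ¬ NearlyBipartite G (ε * (Fintype.card V : ℝ) ^ (1 + 1 / (k : ℝ))) →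
        ∃ (m : ℕ) (H : SimpleGraph (Fin m)), 0 < m ∧ δ * Fintype.card V ≤ m ∧
          Nonempty (H ↪g G) ∧ MixingPiece k δ K C θ l₀ N (Fintype.card V) H) ∧
    -- subdivisions with prescribed lengths
    (∀ ε : ℝ, 0 < ε → ∃ l₀ : ℕ, ∀ r L : ℕ, ∃ n₀ : ℕ, ∀ (V : Type) [Fintype V] (G : SimpleGraph V),
      ((2 * k : ℕ) : ℕ∞) < G.egirth → n₀ ≤ Fintype.card V →
      ¬ NearlyBipartite G (ε * (Fintype.card V : ℝ) ^ (1 + 1 / (k : ℝ))) →
      ∀ len : Fin r → Fin r → ℕ, (∀ i j, i < j → l₀ ≤ len i j ∧ len i j ≤ L) →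
        ContainsSubdivision G r len) ∧
    -- many cycles of all lengths, odd or even
    (∀ ε : ℝ, 0 < ε → ∃ (l₀ : ℕ) (c : ℝ), 0 < c ∧ ∀ l, l₀ ≤ l → ∃ n₀ : ℕ,
      ∀ (V : Type) [Fintype V] (G : SimpleGraph V),
      ((2 * k : ℕ) : ℕ∞) < G.egirth → n₀ ≤ Fintype.card V →
      ¬ NearlyBipartite G (ε * (Fintype.card V : ℝ) ^ (1 + 1 / (k : ℝ))) →
      c ^ l * (Fintype.card V : ℝ) ^ ((l : ℝ) / k) ≤
        ({p : Σ x, G.Walk x x | p.2.IsCycle ∧ p.2.length = l}.ncard : ℝ)) ∧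
    -- graphs without a cycle of one given length
    (∀ ε : ℝ, 0 < ε → ∃ l₀ : ℕ, ∀ l, l₀ ≤ l → ∃ n₀ : ℕ,
      ∀ (V : Type) [Fintype V] (G : SimpleGraph V),
      ((2 * k : ℕ) : ℕ∞) < G.egirth → n₀ ≤ Fintype.card V →
      (∀ x (p : G.Walk x x), p.IsCycle → p.length ≠ l) →
      NearlyBipartite G (ε * (Fintype.card V : ℝ) ^ (1 + 1 / (k : ℝ)))) ∧
    -- the weak form of the compactness conjecture, given the girth conjecture
    (GirthConjecture k → ∀ ε : ℝ, 0 < ε →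
      ∃ l₀ : ℕ, ∀ l, l₀ ≤ l → ∃ n₀ : ℕ, ∀ n ≥ n₀, ∀ G : SimpleGraph (Fin n),
      ((2 * k : ℕ) : ℕ∞) < G.egirth → (∀ x (p : G.Walk x x), p.IsCycle → p.length ≠ l) →
      ∃ B : SimpleGraph (Fin n), ((2 * k : ℕ) : ℕ∞) < B.egirth ∧ B.Colorable 2 ∧
        (G.edgeSet.ncard : ℝ) ≤ (1 + ε) * B.edgeSet.ncard) :=
  ⟨fun _ h => bipartite_piece_theorem hk h, girth_iff hk, fun _ h => even_subdivisions hk h,
    fun _ h => piece_theorem hk h, fun _ h => subdivisions hk h, fun _ h => cycles hk h,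
    fun _ h => nearly_bipartite hk h, fun h _ hε => compactness hk h hε⟩

end Pool.Agent.Results.MP_97687e_co.BoundedMixing
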