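import Pool.Agent.J4.H75.EC.Records

/-!
# Extremal graphs without short even cycles and without a long odd cycle

Erdős and Simonovits conjectured (compactness conjecture, 1982) that for every family of bipartite
graphs, here the even cycles `C_4, C_6, ..., C_{2k}`, forbidding in addition the odd cycles of length
at most `l` has asymptotically the same effect as considering only bipartite graphs, if `l` is large.

Let `k ≥ 1`, let `L` be a set of odd numbers, let `ex k L n` be the maximum number of edges of a graph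
on `n` vertices without even cycles of length at most `2 k` and without cycles whose length is in `L`,
and let `z k n` be the maximum number of edges of a bipartite graph on `n` vertices of girth greater
than `2 k`. Clearly `z k n ≤ ex k L n`. The conjecture says that `ex k L n` is asymptotic to `z k n` if
`L` is the set of all odd numbers up to `l`, for large `l`. Here we allow all sets `L` with an element
`l ≥ l₀(k)`, for instance `L = {l}`, or `L = {3, 5, ..., 2 k - 1, l}` (then the girth is greater than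
`2 k`), and prove that

* `limsup ex k L n / n ^ (1 + 1 / k) = limsup z k n / n ^ (1 + 1 / k)`;
* if `z k n / n ^ (1 + 1 / k)` converges to `ρ` then so does `ex k L n / n ^ (1 + 1 / k)`;
* either `ex k L n / n ^ (1 + 1 / k)` tends to `0`, or `ex k L n = z k n` and all the extremal graphs
  are bipartite for a set of numbers `n` of positive upper density;
* if the girth conjecture holds for `k` then this set has positive lower density.

Idea: if `ex k L n / n ^ a` is at least as large as all the earlier values, where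
`1 < a < 1 + 1 / k`, then an extremal graph `G` on `n` vertices expands. So does the bipartite
subgraph `H` of the edges of a maximal cut of `G`. It has girth greater than `2 k` and minimum degree
`≥ c n ^ (1 / k)`, hence maximum degree `≤ K n ^ (1 / k)`. Therefore the random walk on `H` mixes in
bounded time, up to parity, and any two vertices are joined in `H` by paths of all lengths `≥ l₁` of
the right parity. Hence an edge of `G` which is not an edge of `H` would be contained in a cycle of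
length `l`. These record values of `n` have positive density because
`ex k L (n + 1) - ex k L n` is at most `48 (n + 1) ^ (1 / k)`.
-/

set_option autoImplicit false

namespace Pool.Agent.Results.MP_97687e_co.ExtremalCompactness

open Filter Pool.Agent.J4.H75.GE Pool.Agent.J4.H75.GF Pool.Agent.J4.H75.EC Pool.TH815.GR

/-- `G` has no even cycle of length at most `2 k` and no cycle whose length is in `L`. -/
def Free (k : ℕ) (L : Set ℕ) {n : ℕ} (G : SimpleGraph (Fin n)) : Prop :=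
  ∀ x (p : G.Walk x x), p.IsCycle → (Even p.length → 2 * k < p.length) ∧ p.length ∉ L

/-- The maximum number of edges of a graph on `n` vertices without even cycles of length at most `2 k`
and without cycles whose length is in `L`. -/
noncomputable def ex (k : ℕ) (L : Set ℕ) (n : ℕ) : ℕ :=
  sSup {e | ∃ G : SimpleGraph (Fin n), Free k L G ∧ G.edgeSet.ncard = e}

/-- The maximum number of edges of a bipartite graph on `n` vertices of girth greater than `2 k`. -/
noncomputable def z (k n : ℕ) : ℕ :=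
  sSup {e | ∃ G : SimpleGraph (Fin n),
    (((2 * k : ℕ) : ℕ∞) < G.egirth ∧ G.Colorable 2) ∧ G.edgeSet.ncard = e}

/-- `ex k L n / n ^ (1 + 1 / k)` -/
noncomputable def exDensity (k : ℕ) (L : Set ℕ) (n : ℕ) : ℝ :=
  ex k L n / (n : ℝ) ^ (1 + 1 / (k : ℝ))

/-- `z k n / n ^ (1 + 1 / k)` -/
noncomputable def zDensity (k n : ℕ) : ℝ := z k n / (n : ℝ) ^ (1 + 1 / (k : ℝ))

/-- The two extremal numbers are equal, and all the extremal graphs are bipartite. -/
def Exact (k : ℕ) (L : Set ℕ) (n : ℕ) : Prop :=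
  ex k L n = z k n ∧ ∀ G : SimpleGraph (Fin n), Free k L G → G.edgeSet.ncard = ex k L n →
    G.Colorable 2

/-- The girth conjecture for the parameter `k`. -/
def GirthConjecture (k : ℕ) : Prop :=
  ∃ c : ℝ, 0 < c ∧ ∃ N : ℕ, ∀ n ≥ N, ∃ G : SimpleGraph (Fin n),
    ((2 * k : ℕ) : ℕ∞) < G.egirth ∧ c * (n : ℝ) ^ (1 + 1 / (k : ℝ)) ≤ (G.edgeSet.ncard : ℝ)

theorem ex_eq (k : ℕ) (L : Set ℕ) (n : ℕ) : ex k L n = exP (fun {_} G => Free k L G) n := rfl

theorem z_eq (k n : ℕ) :
    z k n = exP (fun {_} G => ((2 * k : ℕ) : ℕ∞) < G.egirth ∧ G.Colorable 2) n := rfl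

theorem egirth_bot {n k : ℕ} : ((2 * k : ℕ) : ℕ∞) < (⊥ : SimpleGraph (Fin n)).egirth := by
  rw [egirth_iff]
  intro v p hp
  cases p with
  | nil => exact absurd hp (by simp)
  | cons h q => exact absurd h (by simp)

theorem bip_odd {n : ℕ} {G : SimpleGraph (Fin n)} (hG : G.Colorable 2) {L : Set ℕ}
    (hL : ∀ j ∈ L, Odd j) : ∀ x (p : G.Walk x x), p.IsCycle → p.length ∉ L := by
  obtain ⟨col⟩ := hG
  let col' : G.Coloring Bool := SimpleGraph.Coloring.mk (fun x => decide (col x = 0))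
    (fun {a b} h hc => by
      have h5 := col.valid h
      apply h5
      rw [decide_eq_decide] at hc
      have key : ∀ i j : Fin 2, (i = 0 ↔ j = 0) → i = j := by decide
      exact key _ _ hc)
  intro x p _ hp
  have h1 := (col'.even_length_iff_congr p).2 Iff.rfl
  exact (Nat.not_even_iff_odd.2 (hL _ hp)) h1

theorem bip_free {n k : ℕ} {G : SimpleGraph (Fin n)} {L : Set ℕ} (hL : ∀ j ∈ L, Odd j)
    (hG : ((2 * k : ℕ) : ℕ∞) < G.egirth ∧ G.Colorable 2) : Free k L G := fun x p hp =>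
  ⟨fun _ => (egirth_iff G _).1 hG.1 x p hp, bip_odd hG.2 hL x p hp⟩

theorem bip_bot (n k : ℕ) : ((2 * k : ℕ) : ℕ∞) < (⊥ : SimpleGraph (Fin n)).egirth ∧
    (⊥ : SimpleGraph (Fin n)).Colorable 2 :=
  ⟨egirth_bot, ⟨SimpleGraph.Coloring.mk (fun _ => 0) (fun {a b} h => absurd h (by simp))⟩⟩

theorem z_le_ex (k : ℕ) {L : Set ℕ} (hL : ∀ j ∈ L, Odd j) (n : ℕ) : z k n ≤ ex k L n := by
  obtain ⟨G, hG, hGe⟩ := exP_mem
    (P := fun {_} G => ((2 * k : ℕ) : ℕ∞) < G.egirth ∧ G.Colorable 2) ⟨_, bip_bot n k⟩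
  rw [z_eq, ← hGe]
  exact le_exP (P := fun {_} G => Free k L G) (bip_free hL hG)

theorem half {n k : ℕ} (G : SimpleGraph (Fin n))
    (hG : ∀ x (p : G.Walk x x), p.IsCycle → Even p.length → 2 * k < p.length) :
    (G.edgeSet.ncard : ℝ) ≤ 2 * z k n := by
  obtain ⟨B, hB, hBc, hBe, hBg⟩ := half_girth G hG
  have h1 : ((2 * k : ℕ) : ℕ∞) < B.egirth := by
    rw [egirth_iff]
    exact hBg
  have h2 : (B.edgeSet.ncard : ℝ) ≤ z k n := by
    exact_mod_cast le_exP (P := fun {_} G => ((2 * k : ℕ) : ℕ∞) < G.egirth ∧ G.Colorable 2)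
      (G := B) ⟨h1, hBc⟩
  linarith

theorem free_bot (n k : ℕ) {L : Set ℕ} (hL : ∀ j ∈ L, Odd j) :
    Free k L (⊥ : SimpleGraph (Fin n)) := bip_free hL (bip_bot n k)

theorem ex_le (k : ℕ) {L : Set ℕ} (hL : ∀ j ∈ L, Odd j) (n : ℕ) : (ex k L n : ℝ) ≤ 2 * z k n := by
  obtain ⟨G, hG, hGe⟩ := exP_mem (P := fun {_} G => Free k L G) ⟨_, free_bot n k hL⟩
  rw [ex_eq, ← hGe]
  exact half G fun x p hp => (hG x p hp).1

theorem free_comap (k : ℕ) (L : Set ℕ) {m n : ℕ} (φ : Fin m ↪ Fin n) (G : SimpleGraph (Fin n))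
    (hG : Free k L G) : Free k L (G.comap φ) := by
  intro v p hp
  have h1 := hG _ (p.map (SimpleGraph.Embedding.comap φ G).toHom)
    (hp.map (SimpleGraph.Embedding.comap φ G).injective)
  rw [SimpleGraph.Walk.length_map] at h1
  exact h1

theorem main {k : ℕ} (hk : 1 ≤ k) {c : ℝ} (hc : 0 < c) : ∃ (l₀ : ℕ) (ε δ : ℝ), 0 < ε ∧ 0 < δ ∧
    ∀ l, l₀ ≤ l → Odd l → ∃ N₀ : ℕ, ∀ L : Set ℕ, l ∈ L → (∀ j ∈ L, Odd j) → ∀ N ≥ N₀,
      c ≤ exDensity k L N →
      (∃ n : ℕ, ε * N ≤ n ∧ n ≤ N ∧ exDensity k L N ≤ exDensity k L n ∧ Exact k L n) ∧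
      δ * N ≤ ({n : ℕ | n ≤ N ∧ Exact k L n}.ncard : ℝ) := by
  have hkpos : (0 : ℝ) < k := by exact_mod_cast hk
  have hk1 : (1 : ℝ) ≤ k := by exact_mod_cast hk
  set a : ℝ := 1 + 1 / (2 * (k : ℝ)) with ha
  have hk2 : 0 < 1 / (2 * (k : ℝ)) := by positivity
  have ha1 : 1 < a := by rw [ha]; linarith
  have ha2 : a < 1 + 1 / (k : ℝ) := by
    rw [ha]
    have : 1 / (2 * (k : ℝ)) < 1 / (k : ℝ) := by
      apply one_div_lt_one_div_of_lt hkpos
      linarith
    linarith
  obtain ⟨l₀, hl₀⟩ := optimal_bip hk hc ha1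
  set ε : ℝ := (c / (2 * 24)) ^ (1 / (1 + 1 / (k : ℝ) - a)) with hε
  have hε0 : 0 < ε := Real.rpow_pos_of_pos (by positivity) _
  refine ⟨l₀, ε, c / (2 * 48) * ε ^ (a - 1 / (k : ℝ)), hε0, by positivity, fun l hl hodd => ?_⟩
  obtain ⟨N₁, hN₁⟩ := hl₀ l hl hodd
  refine ⟨⌈N₁ / ε⌉₊ + 1, fun L hlL hL N hN hE => ?_⟩
  have hN1 : 1 ≤ N := by omega
  have hN0 : (0 : ℝ) < N := by exact_mod_cast hN1
  have hE' : c * (N : ℝ) ^ (1 + 1 / (k : ℝ)) ≤ exP (fun {_} G => Free k L G) N := by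
    rw [← ex_eq]
    unfold exDensity at hE
    rwa [le_div_iff₀ (Real.rpow_pos_of_pos hN0 _)] at hE
  have hcomap : ∀ {m n : ℕ} (φ : Fin m ↪ Fin n) (G : SimpleGraph (Fin n)), Free k L G →
      Free k L (G.comap φ) := fun φ G hG => free_comap k L φ G hG
  have hne : ∀ n, ∃ G : SimpleGraph (Fin n), Free k L G := fun n => ⟨_, free_bot n k hL⟩
  have hgir : ∀ {n : ℕ} (G : SimpleGraph (Fin n)), Free k L G →
      ∀ (v : Fin n) (p : G.Walk v v), p.IsCycle → Even p.length → 2 * k < p.length :=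
    fun G hG v p hp => (hG v p hp).1
  have hup : ∀ n : ℕ, ((exP (fun {_} G => Free k L G) n : ℕ) : ℝ) ≤
      24 * (n : ℝ) ^ (1 + 1 / (k : ℝ)) :=
    fun n => exP_moore (P := fun {_} G => Free k L G) hk hgir n
  -- records are exact
  have hexact : ∀ n : ℕ, ε * N ≤ n → c / 2 * (n : ℝ) ^ (1 + 1 / (k : ℝ)) ≤
      exP (fun {_} G => Free k L G) n →
      Rec (fun n => (exP (fun {_} G => Free k L G) n : ℝ)) a n → Exact k L n := by
    intro n hsize hEn hrec
    have hNn : N₁ ≤ n := by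
      have h1 : (N₁ : ℝ) / ε ≤ N := by
        refine (Nat.le_ceil _).trans ?_
        exact_mod_cast (by omega : ⌈(N₁ : ℝ) / ε⌉₊ ≤ N)
      rw [div_le_iff₀ hε0] at h1
      have h2 : (N₁ : ℝ) ≤ n := by linarith
      exact_mod_cast h2
    have hbip : ∀ G : SimpleGraph (Fin n), Free k L G → G.edgeSet.ncard = ex k L n →
        G.Colorable 2 := by
      intro G hG hGe
      classical
      refine hN₁ n G (hgir G hG) ?_ hNn
        (opt_of_rec (P := fun {_} G => Free k L G) hcomap hrec G hG hGe) ?_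
      · intro v p hp hpl
        exact (hG v p hp).2 (hpl ▸ hlL)
      · rw [edges_eq, hGe, ex_eq]
        linarith
    refine ⟨?_, hbip⟩
    apply le_antisymm _ (z_le_ex k hL n)
    obtain ⟨G, hG, hGe⟩ := exP_mem (P := fun {_} G => Free k L G) (hne n)
    have h1 := hbip G hG hGe
    rw [ex_eq, ← hGe]
    refine le_exP (P := fun {_} G => ((2 * k : ℕ) : ℕ∞) < G.egirth ∧ G.Colorable 2) ⟨?_, h1⟩
    rw [egirth_iff]
    intro v p hp
    refine (hG v p hp).1 ?_
    by_contra hodd'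
    exact bip_odd h1 (L := {p.length}) (by
      intro j hj
      rw [Set.mem_singleton_iff] at hj
      rw [hj]
      exact Nat.not_even_iff_odd.1 hodd') v p hp rfl
  refine ⟨?_, ?_⟩
  · obtain ⟨n, hn1, hnN, hsize, hrec, hdens⟩ := top_record (a := a) (b := 1 / (k : ℝ))
      (x := fun n => (exP (fun {_} G => Free k L G) n : ℝ)) ha2 hc (by norm_num) hup hN1 hE'
    have hn0 : (0 : ℝ) < n := by exact_mod_cast hn1
    refine ⟨n, hsize, hnN, hdens, hexact n hsize ?_ hrec⟩
    have h1 : c ≤ (exP (fun {_} G => Free k L G) n : ℝ) / (n : ℝ) ^ (1 + 1 / (k : ℝ)) :=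
      hE.trans hdens
    rw [le_div_iff₀ (Real.rpow_pos_of_pos hn0 _)] at h1
    have h2 : 0 ≤ c * (n : ℝ) ^ (1 + 1 / (k : ℝ)) := by positivity
    linarith
  · have hx0 : ((exP (fun {_} G => Free k L G) 0 : ℕ) : ℝ) = 0 := by
      have h1 := hup 0
      have h2 : ((0 : ℕ) : ℝ) ^ (1 + 1 / (k : ℝ)) = 0 := by
        rw [Nat.cast_zero, Real.zero_rpow (by positivity)]
      rw [h2, mul_zero] at h1
      exact le_antisymm h1 (Nat.cast_nonneg _)
    obtain ⟨S, hS, hS'⟩ := many_records (x := fun n => (exP (fun {_} G => Free k L G) n : ℝ))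
      (a := a) (b := 1 / (k : ℝ)) (c := c) (C := 48) (E := 24) ha1
      (by rw [div_le_one hkpos]; exact hk1) ha2 hc (by norm_num) (by norm_num) hx0
      (fun n => Nat.cast_nonneg _)
      (fun n => exP_succ (P := fun {_} G => Free k L G) hcomap hk hgir n) hup hN1 hE'
    refine hS.trans ?_
    rw [← Set.ncard_coe_finset]
    have hfin : {n : ℕ | n ≤ N ∧ Exact k L n}.Finite :=
      (Set.finite_Iic N).subset fun n hn => hn.1
    have hsub : (S : Set ℕ) ⊆ {n : ℕ | n ≤ N ∧ Exact k L n} := by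
      intro n hn
      obtain ⟨-, h2, h3, h4, h5⟩ := hS' n hn
      exact ⟨h2, hexact n h3 h5 h4⟩
    exact_mod_cast Set.ncard_le_ncard hsub hfin

theorem density_nonneg (k : ℕ) (L : Set ℕ) (n : ℕ) : 0 ≤ exDensity k L n :=
  div_nonneg (Nat.cast_nonneg _) (Real.rpow_nonneg (Nat.cast_nonneg _) _)

theorem zDensity_nonneg (k n : ℕ) : 0 ≤ zDensity k n :=
  div_nonneg (Nat.cast_nonneg _) (Real.rpow_nonneg (Nat.cast_nonneg _) _)

theorem zDensity_le (k : ℕ) {L : Set ℕ} (hL : ∀ j ∈ L, Odd j) (n : ℕ) :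
    zDensity k n ≤ exDensity k L n := by
  unfold zDensity exDensity
  apply div_le_div_of_nonneg_right _ (Real.rpow_nonneg (Nat.cast_nonneg _) _)
  exact_mod_cast z_le_ex k hL n

theorem exDensity_le (k : ℕ) {L : Set ℕ} (hL : ∀ j ∈ L, Odd j) (n : ℕ) :
    exDensity k L n ≤ 2 * zDensity k n := by
  unfold zDensity exDensity
  rw [← mul_div_assoc]
  exact div_le_div_of_nonneg_right (ex_le k hL n) (Real.rpow_nonneg (Nat.cast_nonneg _) _)

/-- The unconditional consequences. -/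
theorem uncond {k : ℕ} (hk : 1 ≤ k) : ∃ (l₀ : ℕ) (δ : ℝ), 0 < δ ∧ ∀ (L : Set ℕ),
    (∀ j ∈ L, Odd j) → (∃ l ∈ L, l₀ ≤ l) →
      limsup (exDensity k L) atTop = limsup (zDensity k) atTop ∧
      (∀ ρ : ℝ, Tendsto (zDensity k) atTop (nhds ρ) → Tendsto (exDensity k L) atTop (nhds ρ)) ∧
      (Tendsto (exDensity k L) atTop (nhds 0) ∨
        ∃ᶠ N : ℕ in atTop, δ * N ≤ ({n : ℕ | n ≤ N ∧ Exact k L n}.ncard : ℝ)) := by
  -- it suffices to compare the frequencies
  have key : ∀ L : Set ℕ, (∀ j ∈ L, Odd j) →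
      (∀ t : ℝ, (∃ᶠ n in atTop, t < exDensity k L n) → ∃ᶠ n in atTop, t < zDensity k n) →
      limsup (exDensity k L) atTop = limsup (zDensity k) atTop ∧
      (∀ ρ : ℝ, Tendsto (zDensity k) atTop (nhds ρ) → Tendsto (exDensity k L) atTop (nhds ρ)) := by
    intro L hL hfreq
    constructor
    · rw [limsup_eq, limsup_eq]
      congr 1
      ext t
      rw [Set.mem_ofPred_eq, Set.mem_ofPred_eq]
      constructor
      · intro h
        exact h.mono fun n hn => (zDensity_le k hL n).trans hn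
      · intro h
        by_contra hcon
        rw [not_eventually] at hcon
        have h1 := hfreq t (hcon.mono fun n hn => not_le.1 hn)
        exact h1 (h.mono fun n hn => not_lt.2 hn)
    · intro ρ hρ
      rw [tendsto_order] at hρ ⊢
      refine ⟨fun t ht => (hρ.1 t ht).mono fun n hn => lt_of_lt_of_le hn (zDensity_le k hL n), ?_⟩
      intro t ht
      obtain ⟨t', ht'1, ht'2⟩ := exists_between ht
      by_contra hcon
      rw [not_eventually] at hcon
      have h1 := hfreq t' (hcon.mono fun n hn => lt_of_lt_of_le ht'2 (not_lt.1 hn))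
      exact h1 ((hρ.2 t' ht'1).mono fun n hn => not_lt.2 hn.le)
  by_cases hcase : ∃ c : ℝ, 0 < c ∧ ∃ᶠ n in atTop, c < zDensity k n
  · obtain ⟨c, hc, hcf⟩ := hcase
    obtain ⟨l₀, ε, δ, hε, hδ, hmain⟩ := main hk hc
    refine ⟨l₀, δ, hδ, fun L hL hlL => ?_⟩
    obtain ⟨l, hl, hl0⟩ := hlL
    obtain ⟨N₀, hN₀⟩ := hmain l hl0 (hL l hl)
    have hinf : ∀ t : ℝ, c ≤ t → (∃ᶠ n in atTop, t < exDensity k L n) →
        ∃ᶠ n in atTop, t < exDensity k L n ∧ Exact k L n := by
      intro t hct hft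
      rw [frequently_atTop] at hft ⊢
      intro M
      obtain ⟨N, hN1, hN2⟩ := hft (N₀ + ⌈M / ε⌉₊)
      obtain ⟨⟨n, h1, h2, h3, h4⟩, -⟩ := hN₀ L hl hL N (by omega) (hct.trans hN2.le)
      refine ⟨n, ?_, lt_of_lt_of_le hN2 h3, h4⟩
      have h5 : (M : ℝ) / ε ≤ N := by
        refine (Nat.le_ceil _).trans ?_
        exact_mod_cast (by omega : ⌈(M : ℝ) / ε⌉₊ ≤ N)
      rw [div_le_iff₀ hε] at h5
      have h6 : (M : ℝ) ≤ n := by linarith
      exact_mod_cast h6
    have hcf' : ∃ᶠ n in atTop, c < exDensity k L n :=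
      hcf.mono fun n hn => lt_of_lt_of_le hn (zDensity_le k hL n)
    have hkey := key L hL (by
      intro t hft
      rcases le_total c t with h | h
      · refine (hinf t h hft).mono fun n hn => ?_
        have h1 : zDensity k n = exDensity k L n := by
          unfold zDensity exDensity
          rw [hn.2.1]
        rw [h1]
        exact hn.1
      · exact hcf.mono fun n hn => lt_of_le_of_lt h hn)
    refine ⟨hkey.1, hkey.2, Or.inr ?_⟩
    refine (hcf'.and_eventually (eventually_ge_atTop N₀)).mono fun N hN => ?_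
    exact (hN₀ L hl hL N hN.2 hN.1.le).2
  · push Not at hcase
    refine ⟨0, 1, one_pos, fun L hL _ => ?_⟩
    have hz : ∀ t : ℝ, 0 < t → ∀ᶠ n in atTop, exDensity k L n ≤ t := by
      intro t ht
      have h1 := hcase (t / 2) (by positivity)
      refine h1.mono fun n hn => ?_
      have h2 := exDensity_le k hL n
      linarith
    have hkey := key L hL (by
      intro t hft
      rcases lt_trichotomy t 0 with h | h | h
      · exact (Eventually.of_forall fun n => lt_of_lt_of_le h (zDensity_nonneg k n)).frequently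
      · subst h
        refine hft.mono fun n hn => ?_
        have h2 := exDensity_le k hL n
        linarith
      · exact absurd (hz t h) (by
          intro h1
          exact hft (h1.mono fun n hn => not_lt.2 hn)))
    refine ⟨hkey.1, hkey.2, Or.inl ?_⟩
    rw [tendsto_order]
    refine ⟨fun t ht => Eventually.of_forall fun n => lt_of_lt_of_le ht (density_nonneg k L n), ?_⟩
    intro t ht
    exact (hz (t / 2) (by positivity)).mono fun n hn => by linarith

theorem cond {k : ℕ} (hk : 1 ≤ k) (hconj : GirthConjecture k) : ∃ (l₀ : ℕ) (δ : ℝ), 0 < δ ∧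
    ∀ l, l₀ ≤ l → Odd l → ∃ N₀ : ℕ, ∀ L : Set ℕ, l ∈ L → (∀ j ∈ L, Odd j) → ∀ N ≥ N₀,
      δ * N ≤ ({n : ℕ | n ≤ N ∧ Exact k L n}.ncard : ℝ) := by
  obtain ⟨c, hc, N₁, hN₁⟩ := hconj
  obtain ⟨l₀, ε, δ, hε, hδ, hmain⟩ := main hk (c := c / 2) (by positivity)
  refine ⟨l₀, δ, hδ, fun l hl hodd => ?_⟩
  obtain ⟨N₀, hN₀⟩ := hmain l hl hodd
  refine ⟨N₀ + N₁ + 1, fun L hlL hL N hN => ?_⟩
  have hN0 : (0 : ℝ) < N := by
    have : 0 < N := by omega
    exact_mod_cast this
  obtain ⟨G, hG, hGe⟩ := hN₁ N (by omega)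
  have h1 := half G fun x p hp _ => (egirth_iff G _).1 hG x p hp
  have h2 : (z k N : ℝ) ≤ ex k L N := by exact_mod_cast z_le_ex k hL N
  exact (hN₀ L hlL hL N (by omega) (by
    unfold exDensity
    rw [le_div_iff₀ (Real.rpow_pos_of_pos hN0 _)]
    linarith)).2

theorem result (k : ℕ) (hk : 1 ≤ k) :
    -- the unconditional statements
    (∃ (l₀ : ℕ) (δ : ℝ), 0 < δ ∧ ∀ (L : Set ℕ), (∀ j ∈ L, Odd j) → (∃ l ∈ L, l₀ ≤ l) →
      limsup (exDensity k L) atTop = limsup (zDensity k) atTop ∧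
      (∀ ρ : ℝ, Tendsto (zDensity k) atTop (nhds ρ) → Tendsto (exDensity k L) atTop (nhds ρ)) ∧
      (Tendsto (exDensity k L) atTop (nhds 0) ∨
        ∃ᶠ N : ℕ in atTop, δ * N ≤ ({n : ℕ | n ≤ N ∧ Exact k L n}.ncard : ℝ))) ∧
    -- exact equality below every number of vertices with many edges
    (∀ c : ℝ, 0 < c → ∃ (l₀ : ℕ) (ε δ : ℝ), 0 < ε ∧ 0 < δ ∧ ∀ l, l₀ ≤ l → Odd l → ∃ N₀ : ℕ,
      ∀ L : Set ℕ, l ∈ L → (∀ j ∈ L, Odd j) → ∀ N ≥ N₀, c ≤ exDensity k L N →
        (∃ n : ℕ, ε * N ≤ n ∧ n ≤ N ∧ exDensity k L N ≤ exDensity k L n ∧ Exact k L n) ∧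
        δ * N ≤ ({n : ℕ | n ≤ N ∧ Exact k L n}.ncard : ℝ)) ∧
    -- the case of the girth conjecture
    (GirthConjecture k → ∃ (l₀ : ℕ) (δ : ℝ), 0 < δ ∧ ∀ l, l₀ ≤ l → Odd l → ∃ N₀ : ℕ,
      ∀ L : Set ℕ, l ∈ L → (∀ j ∈ L, Odd j) → ∀ N ≥ N₀,
        δ * N ≤ ({n : ℕ | n ≤ N ∧ Exact k L n}.ncard : ℝ)) :=
  ⟨uncond hk, fun _ hc => main hk hc, cond hk⟩

end Pool.Agent.Results.MP_97687e_co.ExtremalCompactness
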