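import Pool.Agent.J4.H75.EC.Parity

/-!
# The structure of extremal graphs without short even cycles

Let `k ≥ 1` and let `P` be a class of finite graphs without even cycles of length at most `2 k` which
is closed under induced subgraphs, for instance the graphs of girth greater than `2 k`, or all the
graphs without `C_4, C_6, ..., C_{2k}`. Let `ex P n` be the maximum number of edges of a graph in `P` on
`n` vertices. Then `ex P n ≤ 24 n ^ (1 + 1 / k)`.

Let `ex P N ≥ c N ^ (1 + 1 / k)`, where `N` is large. We prove that for at least `δ N` of the numbers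
`n ≤ N` ALL the extremal graphs `G` on `n` vertices have the following properties, where the
constants depend only on `k` and `c`:

* all the degrees have the order `n ^ (1 / k)`;
* `G` expands: every set `A` of at most `n / 2` vertices sends at least `h n ^ (1 / k) |A|` edges to
  its complement;
* `G` has a spanning bipartite subgraph `H` which contains at least half of the edges at every
  vertex, such that the simple random walk on `H` converges to its stationary distribution, up to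
  parity, uniformly and exponentially fast, with constants which do not depend on `n`; and any two
  vertices are joined in `H` by paths of all the lengths `l₀, ..., L` of the right parity;
* either `G` is bipartite, or every vertex lies on cycles of all the lengths `l₀, ..., L`, and any two
  different vertices which are not adjacent are joined by paths of all these lengths;
* either `G` can be made bipartite by deleting at most `B n ^ (1 / k)` edges, that is as few as there
  are edges at a bounded number of vertices, or `G` contains all the subdivisions of `K_r` in which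
  the edges are replaced by paths of arbitrary lengths between `l₀` and `L`.

If the girth conjecture holds for `k` then this applies to the extremal graphs of girth greater than
`2 k`, for a set of numbers `n` of positive lower density.

Idea: take the numbers `n` for which `ex P n / n ^ a` is at least as large as all the earlier values,
`1 < a < 1 + 1 / k`. Then `G` and the graph `H` of a maximal cut of `G` expand. The girth of `H` is
greater than `2 k` and its minimum degree is at least `h n ^ (1 / k)`, hence its maximum degree is at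
most `K n ^ (1 / k)`. These numbers `n` have positive density as `ex P (n + 1) - ex P n` is at most
`48 (n + 1) ^ (1 / k)`.
-/

set_option autoImplicit false

namespace Pool.Agent.Results.MP_97687e_co.ExtremalStructure

open Finset Pool.Agent.J4.H75.GE Pool.Agent.J4.H75.GF Pool.Agent.J4.H75.EC Pool.TH815.GR

/-- The class `P` of graphs is closed under induced subgraphs. -/
def Hereditary (P : ∀ n : ℕ, SimpleGraph (Fin n) → Prop) : Prop :=
  ∀ (m n : ℕ) (φ : Fin m ↪ Fin n) (G : SimpleGraph (Fin n)), P n G → P m (G.comap φ)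

/-- The maximum number of edges of a graph on `n` vertices in the class `P`. -/
noncomputable def ex (P : ∀ n : ℕ, SimpleGraph (Fin n) → Prop) (n : ℕ) : ℕ :=
  sSup {e | ∃ G : SimpleGraph (Fin n), P n G ∧ G.edgeSet.ncard = e}

/-- `G` can be made bipartite by deleting at most `t` edges. -/
def NearlyBipartite {V : Type} (G : SimpleGraph V) (t : ℝ) : Prop :=
  ∃ B : SimpleGraph V, B ≤ G ∧ B.Colorable 2 ∧ (G.edgeSet.ncard : ℝ) ≤ B.edgeSet.ncard + t

/-- The degree of `x`. -/
noncomputable def deg {n : ℕ} (H : SimpleGraph (Fin n)) (x : Fin n) : ℝ :=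
  ((H.neighborSet x).ncard : ℝ)

open Classical in
/-- The transition matrix of the simple random walk on `H`. -/
noncomputable def step {n : ℕ} (H : SimpleGraph (Fin n)) : Matrix (Fin n) (Fin n) ℝ :=
  fun x y => if H.Adj x y then 1 / deg H x else 0

/-- The stationary distribution of the simple random walk on `H`. -/
noncomputable def stat {n : ℕ} (H : SimpleGraph (Fin n)) (y : Fin n) : ℝ :=
  deg H y / ∑ z, deg H z

/-- The sign of the colour of `x`. -/
noncomputable def sign {n : ℕ} (σ : Fin n → Bool) (x : Fin n) : ℝ := if σ x then 1 else -1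

/-- `σ` is a proper colouring of `H` with two colours, the simple random walk on `H` mixes uniformly
up to parity (the number `1 + (-1) ^ l * (sign σ x * sign σ y)` is `2` if walks of length `l` from `x`
to `y` have the right parity, and `0` otherwise), and any two different vertices are joined by paths
of all lengths from `l₀` to `L` of the right parity. -/
structure Mixes (k : ℕ) (C θ : ℝ) (l₀ L : ℕ) {n : ℕ} (H : SimpleGraph (Fin n))
    (σ : Fin n → Bool) : Prop where
  proper : ∀ x y, H.Adj x y → σ x ≠ σ y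
  mixing : ∀ l, 2 * k ≤ l → ∀ x y,
    |(step H ^ l) x y - (1 + (-1) ^ l * (sign σ x * sign σ y)) * stat H y| ≤ C * θ ^ l * stat H y
  paths : ∀ l, l₀ ≤ l → l ≤ L → ∀ x y, x ≠ y → (Even l ↔ σ x = σ y) →
    ∃ p : H.Walk x y, p.IsPath ∧ p.length = l

/-- `G` contains the subdivision of the complete graph on `r` vertices in which the edge `i j`
(`i < j`) is replaced by a path of length `len i j`. -/
def ContainsSubdivision {V : Type} (G : SimpleGraph V) (r : ℕ) (len : Fin r → Fin r → ℕ) : Prop :=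
  ∃ (φ : Fin r → V) (P : ∀ i j, G.Walk (φ i) (φ j)), Function.Injective φ ∧
    ∀ i j, i < j → (P i j).IsPath ∧ (P i j).length = len i j ∧
      (∀ t, t ≠ i → t ≠ j → φ t ∉ (P i j).support) ∧
      ∀ i' j', i' < j' → (i', j') ≠ (i, j) →
        ∀ z ∈ (P i j).support, z ∈ (P i' j').support → ∃ t, z = φ t

/-- The properties of the graph `G` on `n` vertices: all degrees have the order `n ^ (1 / k)`, `G`
expands, it has a spanning bipartite subgraph with at least half of the edges at every vertex which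
mixes in bounded time, it is bipartite or contains paths and cycles of all the lengths from `l₀` to
`L`, and it is nearly bipartite or contains all subdivisions of `K_r` with such lengths. -/
structure Structured (k : ℕ) (h K C θ : ℝ) (l₀ L r : ℕ) (B : ℝ) {n : ℕ}
    (G : SimpleGraph (Fin n)) : Prop where
  degree : ∀ x, h * (n : ℝ) ^ (1 / (k : ℝ)) ≤ deg G x ∧ deg G x ≤ K * (n : ℝ) ^ (1 / (k : ℝ))
  expansion : ∀ A : Finset (Fin n), 2 * A.card ≤ n → h * (n : ℝ) ^ (1 / (k : ℝ)) * A.card ≤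
    ({p : Fin n × Fin n | p.1 ∈ A ∧ p.2 ∉ A ∧ G.Adj p.1 p.2}.ncard : ℝ)
  mixing : ∃ (H : SimpleGraph (Fin n)) (σ : Fin n → Bool), H ≤ G ∧
    (∀ x, deg G x ≤ 2 * deg H x) ∧ Mixes k C θ l₀ L H σ
  lengths : G.Colorable 2 ∨ ∀ l, l₀ ≤ l → l ≤ L →
    (∀ x, ∃ p : G.Walk x x, p.IsCycle ∧ p.length = l) ∧
    ∀ x y, x ≠ y → ¬ G.Adj x y → ∃ p : G.Walk x y, p.IsPath ∧ p.length = l
  subdivisions : NearlyBipartite G (B * (n : ℝ) ^ (1 / (k : ℝ))) ∨
    ∀ len : Fin r → Fin r → ℕ, (∀ i j, i < j → l₀ ≤ len i j ∧ len i j ≤ L) →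
      ContainsSubdivision G r len

/-- The girth conjecture for the parameter `k`. -/
def GirthConjecture (k : ℕ) : Prop :=
  ∃ c : ℝ, 0 < c ∧ ∃ N : ℕ, ∀ n ≥ N, ∃ G : SimpleGraph (Fin n),
    ((2 * k : ℕ) : ℕ∞) < G.egirth ∧ c * (n : ℝ) ^ (1 + 1 / (k : ℝ)) ≤ (G.edgeSet.ncard : ℝ)

theorem ncard_nbr {n : ℕ} (H : SimpleGraph (Fin n)) [DecidableRel H.Adj] (x : Fin n) :
    deg H x = H.degree x := by
  unfold deg
  rw [← H.card_neighborFinset_eq_degree, ← Set.ncard_coe_finset]
  congr 2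
  ext y
  simp

theorem step_eq {n : ℕ} (H : SimpleGraph (Fin n)) [DecidableRel H.Adj] : step H = nT H := by
  ext x y
  unfold step nT ad
  rw [ncard_nbr]
  by_cases h : H.Adj x y
  · rw [if_pos h, if_pos h]
  · rw [if_neg h, if_neg h, zero_div]

theorem stat_eq {n : ℕ} (H : SimpleGraph (Fin n)) [DecidableRel H.Adj] (y : Fin n) :
    stat H y = nφ H y * nφ H y / vol H := by
  unfold stat vol
  rw [ncard_nbr, nφ_sq]
  congr 1
  exact sum_congr rfl fun z _ => ncard_nbr H z

/-- Uniform mixing of a good bipartite graph. -/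
theorem mixing_of_good {k : ℕ} (hk : 1 ≤ k) {h K : ℝ} (hh : 0 < h) (hK : 0 < K) (hhK : h ≤ K)
    {n : ℕ} (hn : 0 < n) (H : SimpleGraph (Fin n)) [DecidableRel H.Adj] (σ : Fin n → Bool)
    (hgood : GoodB k h K H σ) (l : ℕ) (hl : 2 * k ≤ l) (x y : Fin n) :
    |(step H ^ l) x y - (1 + (-1) ^ l * (sign σ x * sign σ y)) * stat H y| ≤
      (4 * K / h ^ 2) ^ k * (K / h) / (1 - h ^ 2 / (2 * K ^ 2)) ^ (2 * k) *
        (1 - h ^ 2 / (2 * K ^ 2)) ^ l * stat H y := by
  have hm0 : (0 : ℝ) < n := by exact_mod_cast hn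
  set θ : ℝ := 1 - h ^ 2 / (2 * K ^ 2) with hθd
  have hθ0 : 0 < θ := by
    have : h ^ 2 / (2 * K ^ 2) ≤ 1 / 2 := by
      rw [div_le_div_iff₀ (by positivity) (by norm_num)]
      nlinarith
    rw [hθd]; linarith
  set B : ℝ := (4 * K / h ^ 2) ^ k with hB
  set D : ℝ := (n : ℝ) ^ (1 / (k : ℝ)) with hD
  have hD0 : 0 < D := Real.rpow_pos_of_pos hm0 _
  have hd' : ∀ x, 0 < H.degree x := by
    intro x
    have : (0 : ℝ) < H.degree x := lt_of_lt_of_le (by positivity) (hgood.deg_ge x)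
    exact_mod_cast this
  have hne : Nonempty (Fin n) := ⟨⟨0, hn⟩⟩
  rw [step_eq, stat_eq, nT_pow hd']
  have hsg : ∀ z, sign σ z = sg σ z := fun _ => rfl
  rw [hsg, hsg]
  set par : ℝ := 1 + (-1) ^ l * (sg σ x * sg σ y) with hpar
  have h1 := hgood.mix hk hh hK hn hl x y
  have hx := nφ_pos hd' x
  have hy := nφ_pos hd' y
  have hv := vol_pos hd'
  have e1 : (nP H ^ l) x y * (nφ H y / nφ H x) - par * (nφ H y * nφ H y / vol H) =
      (nφ H y / nφ H x) * ((nP H ^ l) x y - par * (nφ H x * nφ H y / vol H)) := by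
    field_simp
  rw [e1, abs_mul, abs_of_pos (by positivity : 0 < nφ H y / nφ H x)]
  have h2 : h / (K * n) ≤ nφ H x * nφ H y / vol H := by
    apply hgood.stat_ge hh hK hn
    have a1 : √(h * D) ≤ nφ H x := Real.sqrt_le_sqrt (hgood.deg_ge x)
    have a2 : √(h * D) ≤ nφ H y := Real.sqrt_le_sqrt (hgood.deg_ge y)
    calc h * D = √(h * D) * √(h * D) := (Real.mul_self_sqrt (by positivity)).symm
      _ ≤ _ := mul_le_mul a1 a2 (Real.sqrt_nonneg _) ((Real.sqrt_nonneg _).trans a1)
  calc nφ H y / nφ H x * |(nP H ^ l) x y - par * (nφ H x * nφ H y / vol H)|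
      ≤ nφ H y / nφ H x * (θ ^ (l - 2 * k) * (B / n)) :=
        mul_le_mul_of_nonneg_left h1 (by positivity)
    _ = nφ H y / nφ H x * (B * (K / h)) * θ ^ (l - 2 * k) * (h / (K * n)) := by
        field_simp
    _ ≤ nφ H y / nφ H x * (B * (K / h)) * θ ^ (l - 2 * k) * (nφ H x * nφ H y / vol H) :=
        mul_le_mul_of_nonneg_left h2 (by positivity)
    _ = B * (K / h) * θ ^ (l - 2 * k) * (nφ H y * nφ H y / vol H) := by
        field_simp
    _ = B * (K / h) / θ ^ (2 * k) * θ ^ l * (nφ H y * nφ H y / vol H) := by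
        have : θ ^ l = θ ^ (l - 2 * k) * θ ^ (2 * k) := by
          rw [← pow_add]
          congr 1
          omega
        rw [this]
        field_simp

theorem ar_ncard {n : ℕ} (G : SimpleGraph (Fin n)) [DecidableRel G.Adj] (A : Finset (Fin n)) :
    ar G A Aᶜ = ({p : Fin n × Fin n | p.1 ∈ A ∧ p.2 ∉ A ∧ G.Adj p.1 p.2}.ncard : ℝ) := by
  rw [ar_eq_interedges, ← Set.ncard_coe_finset]
  congr 2
  ext p
  rw [mem_coe, SimpleGraph.mem_interedges_iff]
  simp

/-- Subdivisions from paths of both parities. -/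
theorem subdivisions_of_paths {n r l₀ L : ℕ} {G : SimpleGraph (Fin n)} (hrn : r ≤ n)
    (hpath : ∀ u v, u ≠ v → ∀ S : Finset (Fin n), S.card ≤ r + r * r * (L + l₀ + 1) → u ∉ S →
      v ∉ S → ∀ j, l₀ ≤ j → j ≤ L + l₀ →
        ∃ p : G.Walk u v, p.IsPath ∧ p.length = j ∧ ∀ z ∈ S, z ∉ p.support)
    (len : Fin r → Fin r → ℕ) (hlen : ∀ i j, i < j → l₀ ≤ len i j ∧ len i j ≤ L) :
    ContainsSubdivision G r len := by
  set φ : Fin r → Fin n := Fin.castLE hrn with hφd
  have hφ : Function.Injective φ := Fin.castLE_injective hrn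
  set len' : Fin r × Fin r → ℕ := fun e => if e.1 < e.2 then len e.1 e.2 else l₀ with hlen'
  have hlen1 : ∀ e, len' e ≤ L + l₀ := by
    intro e
    simp only [hlen']
    split_ifs with h
    · have := (hlen e.1 e.2 h).2
      omega
    · omega
  have hlen2 : ∀ e, l₀ ≤ len' e := by
    intro e
    simp only [hlen']
    split_ifs with h
    · exact (hlen e.1 e.2 h).1
    · exact le_rfl
  obtain ⟨P, hP⟩ := greedy G r (L + l₀) φ hφ len' hlen1 (by
    intro e he S hS h1 h2
    exact hpath _ _ (fun h => he (hφ h)) S hS h1 h2 _ (hlen2 e) (hlen1 e))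
  refine ⟨φ, fun i j => P (i, j), hφ, ?_⟩
  intro i j hij
  obtain ⟨h1, h2, h3, h4⟩ := hP (i, j) hij
  refine ⟨h1, ?_, h3, ?_⟩
  · rw [h2]
    simp [hlen', hij]
  · intro i' j' hij' hne z hz hz'
    exact h4 (i', j') hij' hne z hz hz'

/-- Optimal graphs are structured. -/
theorem structured_of_opt {k : ℕ} (hk : 1 ≤ k) {c a : ℝ} (hc : 0 < c) (ha : 1 < a) :
    ∃ (h K C θ : ℝ) (l₀ : ℕ), 0 < h ∧ 0 < θ ∧ θ < 1 ∧ ∀ L r : ℕ, ∃ (B : ℝ) (N₁ : ℕ),
      ∀ (n : ℕ) (G : SimpleGraph (Fin n)) [DecidableRel G.Adj],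
      (∀ (v : Fin n) (p : G.Walk v v), p.IsCycle → Even p.length → 2 * k < p.length) → N₁ ≤ n →
      Opt G a univ → c * (n : ℝ) ^ (1 + 1 / (k : ℝ)) ≤ ar G univ univ →
      Structured k h K C θ l₀ L r B G := by
  obtain ⟨h, K, hh, hK, hhK, N₂, hgoodT⟩ := cut_good hk hc ha
  obtain ⟨l₁, K₁, hK₁, hpathT⟩ := optimal_paths hk hc ha
  set θ : ℝ := 1 - h ^ 2 / (2 * K ^ 2) with hθd
  have hθ1 : θ < 1 := by
    have : 0 < h ^ 2 / (2 * K ^ 2) := by positivity
    rw [hθd]; linarith
  have hθ0 : 0 < θ := by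
    have : h ^ 2 / (2 * K ^ 2) ≤ 1 / 2 := by
      rw [div_le_div_iff₀ (by positivity) (by norm_num)]
      nlinarith
    rw [hθd]; linarith
  refine ⟨h, 2 * K, (4 * K / h ^ 2) ^ k * (K / h) / θ ^ (2 * k), θ, 2 * l₁ + 4, hh, hθ0, hθ1,
    fun L r => ?_⟩
  set s : ℕ := r + r * r * (L + (2 * l₁ + 4) + 1) with hs
  obtain ⟨N₁, hN₁⟩ := hpathT (L + (2 * l₁ + 4)) (s + l₁ + 4)
  refine ⟨(s + 2 : ℕ) * K₁, N₁ + N₂ + r + 1, ?_⟩
  intro n G _ hg hN hopt hE
  obtain ⟨X, hX, hdegX, hpaths⟩ := hN₁ n G hg (by omega) hopt hE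
  have hgood := hgoodT n G X hg (by omega) hopt hE hX
  have hn : 0 < n := by omega
  have hn0 : (0 : ℝ) < n := by exact_mod_cast hn
  set D : ℝ := (n : ℝ) ^ (1 / (k : ℝ)) with hD
  have hD0 : 0 < D := Real.rpow_pos_of_pos hn0 _
  set H : SimpleGraph (Fin n) := cut G X with hH
  have hHG : H ≤ G := cut_le G X
  set σ : Fin n → Bool := fun x => decide (x ∈ X) with hσ
  have hhas : HasPaths H σ l₁ (L + (2 * l₁ + 4)) (s + l₁ + 4) := hpaths
  have hproper : ∀ a b, H.Adj a b → σ a ≠ σ b := hgood.proper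
  -- degrees
  have hdegar : ∀ x, ∀ F : SimpleGraph (Fin n), ∀ _ : DecidableRel F.Adj,
      ar F {x} {x}ᶜ = (F.degree x : ℝ) := by
    intro x F _
    rw [ar_eq_sum_card, sum_singleton, ← deg_eq]
    congr 2
    ext y
    simp only [mem_filter, mem_compl, mem_singleton, mem_univ, true_and, and_iff_right_iff_imp]
    intro h1 h2
    exact h1.ne h2.symm
  have hdouble : ∀ x, (G.degree x : ℝ) ≤ 2 * (H.degree x : ℝ) := by
    intro x
    have h1 := cut_half G X hX {x}
    rw [hdegar x G inferInstance] at h1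
    rw [← hdegar x H inferInstance]
    exact h1
  have hmono : ∀ x, (H.degree x : ℝ) ≤ (G.degree x : ℝ) := by
    intro x
    rw [← hdegar x G inferInstance, ← hdegar x H inferInstance]
    exact ar_le_ar_of_le hHG _ _
  refine ⟨?_, ?_, ⟨H, σ, hHG, ?_, ⟨hproper, ?_, ?_⟩⟩, ?_, ?_⟩
  · intro x
    rw [ncard_nbr]
    refine ⟨(hgood.deg_ge x).trans (hmono x), (hdouble x).trans ?_⟩
    have := hgood.deg_le x
    linarith
  · intro A hA
    rw [← ar_ncard]
    exact (hgood.exp A hA).trans (ar_le_ar_of_le hHG _ _)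
  · intro x
    rw [ncard_nbr, ncard_nbr]
    exact hdouble x
  · intro l hl x y
    exact mixing_of_good hk hh hK hhK hn H σ hgood l hl x y
  · intro l hl hlL x y hxy hpar
    obtain ⟨p, hp, hpl, -⟩ := hhas ∅ (by simp) x y hxy (by simp) (by simp) l (by omega) (by omega)
      hpar
    exact ⟨p, hp, hpl⟩
  · by_cases hm : ∃ x y, G.Adj x y ∧ σ x = σ y
    · right
      obtain ⟨x, y, hxy, hc'⟩ := hm
      intro l hl hlL
      refine ⟨?_, ?_⟩
      · intro u
        have hdeg0 : 0 < H.degree u := by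
          have h1 : (0 : ℝ) < H.degree u := lt_of_lt_of_le (by positivity) (hgood.deg_ge u)
          exact_mod_cast h1
        obtain ⟨w, hw⟩ := (H.degree_pos_iff_exists_adj u).1 hdeg0
        exact all_cycles hHG (by omega) hhas hproper hxy hc' hw (by omega) (by omega)
      · intro u v huv hnadj
        exact all_paths hHG (by omega) hhas hxy hc' huv
          (by rintro ⟨rfl, rfl⟩; exact hnadj hxy) (by rintro ⟨rfl, rfl⟩; exact hnadj hxy.symm)
          (by omega) (by omega)
    · left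
      push Not at hm
      let col : G.Coloring Bool := SimpleGraph.Coloring.mk σ (fun {a b} h => hm a b h)
      have := col.colorable
      rwa [Fintype.card_bool] at this
  · by_cases hfr : fr G univ ≤ 2 * ((s + 2 : ℕ) : ℝ) * (K₁ * D)
    · left
      obtain ⟨B, hB, hBc, hBe⟩ := exists_bip_fr G
      refine ⟨B, hB, hBc, ?_⟩
      linarith
    · right
      push Not at hfr
      refine subdivisions_of_paths (l₀ := 2 * l₁ + 4) (L := L) (by omega) ?_
      intro u v huv S hS hu hv j hj hjL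
      by_cases hpar : Even j ↔ σ u = σ v
      · obtain ⟨p, hp, hpl, hpS⟩ := hhas S (by omega) u v huv hu hv j (by omega) hjL hpar
        refine ⟨p.mapLe hHG, hp.mapLe hHG, by rw [SimpleGraph.Walk.length_mapLe, hpl], ?_⟩
        intro z hz
        rw [SimpleGraph.Walk.support_mapLe_eq_support]
        exact hpS z hz
      · -- a monochromatic edge
        have hcard : (insert u (insert v S)).card ≤ s + 2 := by
          have h1 := card_insert_le u (insert v S)
          have h2 := card_insert_le v S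
          omega
        obtain ⟨x, y, hxy, hcxy, hx, hy⟩ : ∃ x y, G.Adj x y ∧ (x ∈ X ↔ y ∈ X) ∧
            x ∉ insert u (insert v S) ∧ y ∉ insert u (insert v S) := by
          by_contra hcon
          push Not at hcon
          have h1 := fr_small G hX hdegX (insert u (insert v S)) (by
            intro x y hxy hc'
            by_contra h2
            push Not at h2
            exact h2.2 (hcon x y hxy hc' h2.1))
          have h2 : ((insert u (insert v S)).card : ℝ) ≤ ((s + 2 : ℕ) : ℝ) := by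
            exact_mod_cast hcard
          have h3 : 2 * ((insert u (insert v S)).card : ℝ) * (K₁ * D) ≤
              2 * ((s + 2 : ℕ) : ℝ) * (K₁ * D) := by gcongr
          linarith
        simp only [mem_insert, not_or] at hx hy
        exact wrong_two (s := s) hHG le_rfl hhas hxy (by rw [hσ]; simpa using hcxy)
          (Ne.symm hx.1) (Ne.symm hy.1) (Ne.symm hx.2.1) (Ne.symm hy.2.1) huv (by omega) hjL hpar
          S hS hu hv hx.2.2 hy.2.2

/-- The structure theorem. -/
theorem main {k : ℕ} (hk : 1 ≤ k) {c : ℝ} (hc : 0 < c) :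
    ∃ (δ h K C θ : ℝ) (l₀ : ℕ), 0 < δ ∧ 0 < h ∧ 0 < θ ∧ θ < 1 ∧ ∀ L r : ℕ, ∃ (B : ℝ) (N₀ : ℕ),
      ∀ P : (∀ n : ℕ, SimpleGraph (Fin n) → Prop), Hereditary P →
      (∀ n G, P n G → ∀ x (p : G.Walk x x), p.IsCycle → Even p.length → 2 * k < p.length) →
      ∀ N ≥ N₀, c * (N : ℝ) ^ (1 + 1 / (k : ℝ)) ≤ ex P N →
        δ * N ≤ ({n : ℕ | n ≤ N ∧ ∀ G : SimpleGraph (Fin n), P n G → G.edgeSet.ncard = ex P n →
          Structured k h K C θ l₀ L r B G}.ncard : ℝ) := by
  have hkpos : (0 : ℝ) < k := by exact_mod_cast hk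
  have hk1 : (1 : ℝ) ≤ k := by exact_mod_cast hk
  set a : ℝ := 1 + 1 / (2 * (k : ℝ)) with ha
  have hk2 : 0 < 1 / (2 * (k : ℝ)) := by positivity
  have ha1 : 1 < a := by rw [ha]; linarith
  have ha2 : a < 1 + 1 / (k : ℝ) := by
    rw [ha]
    have : 1 / (2 * (k : ℝ)) < 1 / (k : ℝ) := by
      apply one_div_lt_one_div_of_lt hkpos
      linarith
    linarith
  obtain ⟨h, K, C, θ, l₀, hh, hθ0, hθ1, hst⟩ := structured_of_opt hk hc ha1
  set ε : ℝ := (c / (2 * 24)) ^ (1 / (1 + 1 / (k : ℝ) - a)) with hε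
  have hε0 : 0 < ε := Real.rpow_pos_of_pos (by positivity) _
  refine ⟨c / (2 * 48) * ε ^ (a - 1 / (k : ℝ)), h, K, C, θ, l₀, by positivity, hh, hθ0, hθ1,
    fun L r => ?_⟩
  obtain ⟨B, N₁, hN₁⟩ := hst L r
  refine ⟨B, ⌈N₁ / ε⌉₊ + 1, ?_⟩
  intro P hP hPg N hN hE
  have hN1 : 1 ≤ N := by omega
  have hN0 : (0 : ℝ) < N := by exact_mod_cast hN1
  have hcomap : ∀ {m n : ℕ} (φ : Fin m ↪ Fin n) (G : SimpleGraph (Fin n)), P n G →
      P m (G.comap φ) := fun φ G hG => hP _ _ φ G hG
  have hgir : ∀ {n : ℕ} (G : SimpleGraph (Fin n)), P n G →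
      ∀ (v : Fin n) (p : G.Walk v v), p.IsCycle → Even p.length → 2 * k < p.length :=
    fun G hG v p hp => hPg _ G hG v p hp
  have hup : ∀ n : ℕ, ((exP (fun {n} G => P n G) n : ℕ) : ℝ) ≤
      24 * (n : ℝ) ^ (1 + 1 / (k : ℝ)) :=
    fun n => exP_moore (P := fun {n} G => P n G) hk hgir n
  have hx0 : ((exP (fun {n} G => P n G) 0 : ℕ) : ℝ) = 0 := by
    have h1 := hup 0
    have h2 : ((0 : ℕ) : ℝ) ^ (1 + 1 / (k : ℝ)) = 0 := by
      rw [Nat.cast_zero, Real.zero_rpow (by positivity)]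
    rw [h2, mul_zero] at h1
    exact le_antisymm h1 (Nat.cast_nonneg _)
  obtain ⟨S, hS, hS'⟩ := many_records (x := fun n => (exP (fun {n} G => P n G) n : ℝ))
    (a := a) (b := 1 / (k : ℝ)) (c := c) (C := 48) (E := 24) ha1
    (by rw [div_le_one hkpos]; exact hk1) ha2 hc (by norm_num) (by norm_num) hx0
    (fun n => Nat.cast_nonneg _)
    (fun n => exP_succ (P := fun {n} G => P n G) hcomap hk hgir n) hup hN1 hE
  refine hS.trans ?_
  rw [← Set.ncard_coe_finset]
  have hfin : {n : ℕ | n ≤ N ∧ ∀ G : SimpleGraph (Fin n), P n G → G.edgeSet.ncard = ex P n →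
      Structured k h K C θ l₀ L r B G}.Finite := (Set.finite_Iic N).subset fun n hn => hn.1
  have hsub : (S : Set ℕ) ⊆ {n : ℕ | n ≤ N ∧ ∀ G : SimpleGraph (Fin n), P n G →
      G.edgeSet.ncard = ex P n → Structured k h K C θ l₀ L r B G} := by
    intro n hn
    obtain ⟨-, h2, h3, h4, h5⟩ := hS' n hn
    refine ⟨h2, fun G hG hGe => ?_⟩
    have hNn : N₁ ≤ n := by
      have h1 : (N₁ : ℝ) / ε ≤ N := by
        refine (Nat.le_ceil _).trans ?_
        exact_mod_cast (by omega : ⌈(N₁ : ℝ) / ε⌉₊ ≤ N)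
      rw [div_le_iff₀ hε0] at h1
      have h3' : ε * N ≤ n := h3
      have h2 : (N₁ : ℝ) ≤ n := by linarith
      exact_mod_cast h2
    classical
    refine hN₁ n G (hgir G hG) hNn
      (opt_of_rec (P := fun {n} G => P n G) hcomap h4 G hG hGe) ?_
    rw [edges_eq, hGe]
    have h6 : ((ex P n : ℕ) : ℝ) = (exP (fun {n} G => P n G) n : ℝ) := rfl
    rw [h6]
    linarith
  exact_mod_cast Set.ncard_le_ncard hsub hfin

/-- Graphs of girth greater than `2 k`. -/
theorem girth {k : ℕ} (hk : 1 ≤ k) (hconj : GirthConjecture k) :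
    ∃ (δ h K C θ : ℝ) (l₀ : ℕ), 0 < δ ∧ 0 < h ∧ 0 < θ ∧ θ < 1 ∧ ∀ L r : ℕ, ∃ (B : ℝ) (N₀ : ℕ),
      ∀ N ≥ N₀, δ * N ≤ ({n : ℕ | n ≤ N ∧ ∀ G : SimpleGraph (Fin n),
        ((2 * k : ℕ) : ℕ∞) < G.egirth →
        G.edgeSet.ncard = ex (fun _ G => ((2 * k : ℕ) : ℕ∞) < G.egirth) n →
          Structured k h K C θ l₀ L r B G}.ncard : ℝ) := by
  obtain ⟨c, hc, N₁, hN₁⟩ := hconj
  obtain ⟨δ, h, K, C, θ, l₀, hδ, hh, hθ0, hθ1, hmain⟩ := main hk hc
  refine ⟨δ, h, K, C, θ, l₀, hδ, hh, hθ0, hθ1, fun L r => ?_⟩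
  obtain ⟨B, N₀, hN₀⟩ := hmain L r
  refine ⟨B, N₀ + N₁, fun N hN => ?_⟩
  refine hN₀ (fun _ G => ((2 * k : ℕ) : ℕ∞) < G.egirth) ?_ ?_ N (by omega) ?_
  · intro m n φ G hG
    rw [egirth_iff] at hG ⊢
    exact cycle_comap φ hG
  · intro n G hG x p hp _
    exact (egirth_iff G _).1 hG x p hp
  · obtain ⟨G, hG, hGe⟩ := hN₁ N (by omega)
    refine hGe.trans ?_
    exact_mod_cast le_exP (P := fun {_} G => ((2 * k : ℕ) : ℕ∞) < G.egirth) hG

theorem result (k : ℕ) (hk : 1 ≤ k) :
    -- extremal graphs of hereditary classes without short even cycles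
    (∀ c : ℝ, 0 < c →
      ∃ (δ h K C θ : ℝ) (l₀ : ℕ), 0 < δ ∧ 0 < h ∧ 0 < θ ∧ θ < 1 ∧ ∀ L r : ℕ, ∃ (B : ℝ) (N₀ : ℕ),
      ∀ P : (∀ n : ℕ, SimpleGraph (Fin n) → Prop), Hereditary P →
      (∀ n G, P n G → ∀ x (p : G.Walk x x), p.IsCycle → Even p.length → 2 * k < p.length) →
      ∀ N ≥ N₀, c * (N : ℝ) ^ (1 + 1 / (k : ℝ)) ≤ ex P N →
        δ * N ≤ ({n : ℕ | n ≤ N ∧ ∀ G : SimpleGraph (Fin n), P n G → G.edgeSet.ncard = ex P n →
          Structured k h K C θ l₀ L r B G}.ncard : ℝ)) ∧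
    -- the case of the girth conjecture
    (GirthConjecture k →
      ∃ (δ h K C θ : ℝ) (l₀ : ℕ), 0 < δ ∧ 0 < h ∧ 0 < θ ∧ θ < 1 ∧ ∀ L r : ℕ, ∃ (B : ℝ) (N₀ : ℕ),
      ∀ N ≥ N₀, δ * N ≤ ({n : ℕ | n ≤ N ∧ ∀ G : SimpleGraph (Fin n),
        ((2 * k : ℕ) : ℕ∞) < G.egirth →
        G.edgeSet.ncard = ex (fun _ G => ((2 * k : ℕ) : ℕ∞) < G.egirth) n →
          Structured k h K C θ l₀ L r B G}.ncard : ℝ)) :=
  ⟨fun _ hc => main hk hc, girth hk⟩

end Pool.Agent.Results.MP_97687e_co.ExtremalStructure
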