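import Pool.Agent.J4.H75.EC.Far6
import Pool.Agent.J4.H75.EC.Struct

/-!
# The gap between girth `2 k + 1` and girth `2 k + 2`

Let `k ≥ 2`, and let `γ n` and `γ' n` be the maximum numbers of edges of a graph on `n` vertices of
girth greater than `2 k` and greater than `2 k + 1`. It is known that `γ' n ≤ γ n ≤ 2 γ' n`. We prove
that these numbers differ by at least `κ n ^ (2 / k)` for many `n`, and that the extremal graphs for
`γ n` are far from the graphs of girth `2 k + 2`.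

Let `γ N ≥ c N ^ (1 + 1 / k)`, where `N` is large. For at least `δ N` of the numbers `n ≤ N`

* `γ' n + κ n ^ (2 / k) < γ n`, and ALL the extremal graphs `G` on `n` vertices, that is the graphs of
  girth greater than `2 k` with `γ n` edges, have the following properties:
* more than `κ n ^ (2 / k)` edges have to be deleted to destroy all cycles of length `2 k + 1`, and in
  particular to make `G` bipartite;
* for every set `S` of at least two vertices more than `κ (|S| - 1) n ^ (1 / k)` edges have to be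
  deleted to destroy all the paths of lengths `2, ..., 2 k` between different vertices of `S` (for
  instance, `S` may consist of any two vertices `x`, `y`; if they are adjacent, these paths are given
  by the cycles of length `2 k + 1` through the edge `x y`); up to the constant this is optimal for
  every set `S`, as the degrees are at most `K n ^ (1 / k)`;
* every vertex lies on cycles of all the lengths `l₀, ..., L`, and any two different vertices which are
  not adjacent are joined by paths of all these lengths;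
* `G` contains all the subdivisions of `K_r` in which the edges are replaced by paths of arbitrary
  lengths between `l₀` and `L`.

The constants depend on `k` and `c` only, and `N` is large in terms of `L` and `r`. If the girth
conjecture holds for `k`, all this is true for a set of numbers `n` of positive lower density.

Idea: take the numbers `n` for which `γ n / n ^ a` is at least as large as all the earlier values,
`1 < a < 1 + 1 / k`. If `d` edges of `G` are deleted to destroy the paths of lengths `2, ..., 2 k`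
between the elements of a set `S` of `s` vertices, then these can be identified:
`γ (n - s + 1) ≥ γ n - d - s / 2`, whereas `γ (n - s + 1) ≤ γ n - (s - 1) * γ n / n` by the choice of
`n`. Now let `G'` be a graph of girth greater than
`2 k + 1` on `n` vertices with `γ n - d` edges. An edge which is in `ν` cycles of length `2 k + 1` can
be contracted after the deletion of `ν` further edges, and there are edges with `ν = O (t)` during the
first `t = κ₁ n ^ (1 / k)` contractions, as there are no cycles of length `2 k + 1` at the beginning and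
every contraction creates at most `O (n ^ (1 + 1 / k))` of them. Thus
`γ (n - t) ≥ γ n - d - O (t ^ 2)`, whereas `γ (n - t) ≤ γ n - t * γ n / n`, and hence `d` is at least of
the order `t n ^ (1 / k)`. Finally, a graph `G` which has not all the cycles, paths and subdivisions
can be made bipartite by the deletion of `O (n ^ (1 / k))` edges, since the graph of a maximal cut of
`G` is an expander with paths of all lengths `l₀, ..., L` of the right parity.
-/

set_option autoImplicit false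

namespace Pool.Agent.Results.MP_97687e_co.GirthGap

open Finset Pool.Agent.J4.H75.GE Pool.Agent.J4.H75.GF Pool.Agent.J4.H75.EC Pool.TH815.GR

/-- The maximum number of edges of a graph on `n` vertices in the class `P`. -/
noncomputable def ex (P : ∀ n : ℕ, SimpleGraph (Fin n) → Prop) (n : ℕ) : ℕ :=
  sSup {e | ∃ G : SimpleGraph (Fin n), P n G ∧ G.edgeSet.ncard = e}

/-- `G` contains the subdivision of the complete graph on `r` vertices in which the edge `i j`
(`i < j`) is replaced by a path of length `len i j`. -/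
def ContainsSubdivision {V : Type} (G : SimpleGraph V) (r : ℕ) (len : Fin r → Fin r → ℕ) : Prop :=
  ∃ (φ : Fin r → V) (P : ∀ i j, G.Walk (φ i) (φ j)), Function.Injective φ ∧
    ∀ i j, i < j → (P i j).IsPath ∧ (P i j).length = len i j ∧
      (∀ t, t ≠ i → t ≠ j → φ t ∉ (P i j).support) ∧
      ∀ i' j', i' < j' → (i', j') ≠ (i, j) →
        ∀ z ∈ (P i j).support, z ∈ (P i' j').support → ∃ t, z = φ t

/-- `G` contains cycles of all the lengths from `l₀` to `L` through all vertices, and paths of these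
lengths between any two different vertices which are not adjacent. -/
def HasLengths (l₀ L : ℕ) {n : ℕ} (G : SimpleGraph (Fin n)) : Prop :=
  ∀ l, l₀ ≤ l → l ≤ L → (∀ x, ∃ p : G.Walk x x, p.IsCycle ∧ p.length = l) ∧
    ∀ x y, x ≠ y → ¬ G.Adj x y → ∃ p : G.Walk x y, p.IsPath ∧ p.length = l

/-- `G` contains all the subdivisions of `K_r` in which the edges are replaced by paths with lengths
from `l₀` to `L`. -/
def HasSubdivisions (l₀ L r : ℕ) {n : ℕ} (G : SimpleGraph (Fin n)) : Prop :=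
  ∀ len : Fin r → Fin r → ℕ, (∀ i j, i < j → l₀ ≤ len i j ∧ len i j ≤ L) →
    ContainsSubdivision G r len

/-- More than `κ n ^ (2 / k)` edges of `G` must be deleted to destroy all cycles of length `2 k + 1`,
more than `κ (|S| - 1) n ^ (1 / k)` edges must be deleted to destroy all the paths of lengths
`2, ..., 2 k` between different vertices of a given set `S` of at least two vertices, and `G` contains
paths and cycles of all the lengths from `l₀` to `L`, and all subdivisions of `K_r` with such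
lengths. -/
structure Far (k : ℕ) (κ : ℝ) (l₀ L r : ℕ) {n : ℕ} (G : SimpleGraph (Fin n)) : Prop where
  far : ∀ H : SimpleGraph (Fin n), H ≤ G → (∀ x (p : H.Walk x x), p.IsCycle → p.length ≠ 2 * k + 1) →
    H.edgeSet.ncard + κ * (n : ℝ) ^ (2 / (k : ℝ)) < G.edgeSet.ncard
  connected : ∀ S : Finset (Fin n), 2 ≤ S.card → ∀ H : SimpleGraph (Fin n), H ≤ G →
    (∀ x ∈ S, ∀ y ∈ S, x ≠ y → ∀ p : H.Walk x y, p.IsPath → 2 ≤ p.length → 2 * k < p.length) →
    H.edgeSet.ncard + κ * ((S.card : ℝ) - 1) * (n : ℝ) ^ (1 / (k : ℝ)) < G.edgeSet.ncard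
  lengths : HasLengths l₀ L G
  subdivisions : HasSubdivisions l₀ L r G

/-- The girth conjecture for the parameter `k`. -/
def GirthConjecture (k : ℕ) : Prop :=
  ∃ c : ℝ, 0 < c ∧ ∃ N : ℕ, ∀ n ≥ N, ∃ G : SimpleGraph (Fin n),
    ((2 * k : ℕ) : ℕ∞) < G.egirth ∧ c * (n : ℝ) ^ (1 + 1 / (k : ℝ)) ≤ (G.edgeSet.ncard : ℝ)

/-- The class of the graphs of girth greater than `2 k`. -/
theorem far_main {k : ℕ} (hk : 2 ≤ k) {c : ℝ} (hc : 0 < c) :
    ∃ (δ κ : ℝ) (l₀ : ℕ), 0 < δ ∧ 0 < κ ∧ ∀ L r : ℕ, ∃ N₀ : ℕ,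
      ∀ N ≥ N₀, c * (N : ℝ) ^ (1 + 1 / (k : ℝ)) ≤ ex (fun _ G => Gir k G) N →
        δ * N ≤ ({n : ℕ | n ≤ N ∧ (∀ H : SimpleGraph (Fin n),
          (∀ (v : Fin n) (p : H.Walk v v), p.IsCycle → 2 * k + 1 < p.length) →
          H.edgeSet.ncard + κ * (n : ℝ) ^ (2 / (k : ℝ)) < (ex (fun _ G => Gir k G) n : ℝ)) ∧
          ∀ G : SimpleGraph (Fin n), Gir k G → G.edgeSet.ncard = ex (fun _ G => Gir k G) n →
          Far k κ l₀ L r G}.ncard : ℝ) := by
  have hk' : 1 ≤ k := by omega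
  have hkpos : (0 : ℝ) < k := by exact_mod_cast hk'
  have hk1 : (1 : ℝ) ≤ k := by exact_mod_cast hk'
  set a : ℝ := 1 + 1 / (2 * (k : ℝ)) with ha
  have hk2 : 0 < 1 / (2 * (k : ℝ)) := by positivity
  have ha1 : 1 < a := by rw [ha]; linarith
  have ha2 : a < 1 + 1 / (k : ℝ) := by
    rw [ha]
    have : 1 / (2 * (k : ℝ)) < 1 / (k : ℝ) := by
      apply one_div_lt_one_div_of_lt hkpos
      linarith
    linarith
  obtain ⟨h, K, C, θ, l₀, hh, hθ0, hθ1, hst⟩ := Str.structured_of_opt hk' hc ha1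
  obtain ⟨κ₀, hκ₀, N₂, hfar⟩ := gap hk (c := c / 2) (a := a) (by positivity) ha1.le
  obtain ⟨N₃, hset⟩ := set_robust hk' (c := c / 2) (a := a) (by positivity) ha1.le
  obtain ⟨κ, hκ, hκ1, hκ2⟩ : ∃ κ : ℝ, 0 < κ ∧ κ ≤ κ₀ ∧ κ ≤ c / 2 / 2 :=
    ⟨min κ₀ (c / 2 / 2), lt_min hκ₀ (by positivity), min_le_left _ _, min_le_right _ _⟩
  set ε : ℝ := (c / (2 * 24)) ^ (1 / (1 + 1 / (k : ℝ) - a)) with hε
  have hε0 : 0 < ε := Real.rpow_pos_of_pos (by positivity) _
  refine ⟨c / (2 * 48) * ε ^ (a - 1 / (k : ℝ)), κ, l₀, by positivity, hκ, fun L r => ?_⟩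
  obtain ⟨B, N₁, hN₁⟩ := hst L r
  obtain ⟨N₄, hN₄⟩ := rpow_large hk' (B / κ)
  refine ⟨⌈((N₁ + N₂ + N₃ + N₄ : ℕ) : ℝ) / ε⌉₊ + 1, ?_⟩
  intro N hN hE
  have hN1 : 1 ≤ N := by omega
  have hN0 : (0 : ℝ) < N := by exact_mod_cast hN1
  have hcomap : ∀ {m n : ℕ} (φ : Fin m ↪ Fin n) (G : SimpleGraph (Fin n)), Gir k G →
      Gir k (G.comap φ) := fun φ G hG => cycle_comap (G := G) φ hG
  have hgir : ∀ {n : ℕ} (G : SimpleGraph (Fin n)), Gir k G →
      ∀ (v : Fin n) (p : G.Walk v v), p.IsCycle → Even p.length → 2 * k < p.length :=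
    fun G hG v p hp _ => hG v p hp
  have hup : ∀ n : ℕ, ((exP (fun {n} (G : SimpleGraph (Fin n)) => Gir k G) n : ℕ) : ℝ) ≤
      24 * (n : ℝ) ^ (1 + 1 / (k : ℝ)) :=
    fun n => exP_moore (P := fun {n} G => Gir k G) hk' hgir n
  have hx0 : ((exP (fun {n} (G : SimpleGraph (Fin n)) => Gir k G) 0 : ℕ) : ℝ) = 0 := by
    have h1 := hup 0
    have h2 : ((0 : ℕ) : ℝ) ^ (1 + 1 / (k : ℝ)) = 0 := by
      rw [Nat.cast_zero, Real.zero_rpow (by positivity)]
    rw [h2, mul_zero] at h1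
    exact le_antisymm h1 (Nat.cast_nonneg _)
  obtain ⟨S, hS, hS'⟩ := many_records
    (x := fun n => (exP (fun {n} (G : SimpleGraph (Fin n)) => Gir k G) n : ℝ))
    (a := a) (b := 1 / (k : ℝ)) (c := c) (C := 48) (E := 24) ha1
    (by rw [div_le_one hkpos]; exact hk1) ha2 hc (by norm_num) (by norm_num) hx0
    (fun n => Nat.cast_nonneg _)
    (fun n => exP_succ (P := fun {n} G => Gir k G) hcomap hk' hgir n) hup hN1 hE
  refine hS.trans ?_
  rw [← Set.ncard_coe_finset]
  refine Nat.cast_le.2 (Set.ncard_le_ncard ?_ ((Set.finite_Iic N).subset fun n hn => hn.1))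
  · intro n hn
    obtain ⟨-, h2, h3, h4, h5⟩ := hS' n hn
    have hNn : N₁ + N₂ + N₃ + N₄ ≤ n := by
      have h1 : ((N₁ + N₂ + N₃ + N₄ : ℕ) : ℝ) / ε ≤ N := by
        refine (Nat.le_ceil _).trans ?_
        exact_mod_cast (by omega : ⌈((N₁ + N₂ + N₃ + N₄ : ℕ) : ℝ) / ε⌉₊ ≤ N)
      rw [div_le_iff₀ hε0] at h1
      have h3' : ε * N ≤ n := h3
      have h2 : ((N₁ + N₂ + N₃ + N₄ : ℕ) : ℝ) ≤ n := by linarith
      exact_mod_cast h2
    have h6 : c / 2 * (n : ℝ) ^ (1 + 1 / (k : ℝ)) ≤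
        (exP (fun {n} (G : SimpleGraph (Fin n)) => Gir k G) n : ℝ) := h5
    have h7 : ∀ H : SimpleGraph (Fin n),
        (∀ (v : Fin n) (p : H.Walk v v), p.IsCycle → 2 * k + 1 < p.length) →
        H.edgeSet.ncard + κ * (n : ℝ) ^ (2 / (k : ℝ)) <
          (exP (fun {n} (G : SimpleGraph (Fin n)) => Gir k G) n : ℝ) := by
      intro H hH
      have h8 := hfar n (by omega) h4 h6 H hH
      have h9 : κ * (n : ℝ) ^ (2 / (k : ℝ)) ≤ κ₀ * (n : ℝ) ^ (2 / (k : ℝ)) :=
        mul_le_mul_of_nonneg_right hκ1 (Real.rpow_nonneg (Nat.cast_nonneg _) _)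
      linarith
    refine ⟨h2, h7, fun G hG hGe => ?_⟩
    have hGe' : G.edgeSet.ncard = exP (fun {n} (G : SimpleGraph (Fin n)) => Gir k G) n := hGe
    have hGe2 : (G.edgeSet.ncard : ℝ) = (exP (fun {n} (G : SimpleGraph (Fin n)) => Gir k G) n : ℝ) := by
      rw [hGe']
    classical
    have hst' : Str.Structured k h K C θ l₀ L r B G := by
      refine hN₁ n G (hgir G hG) (by omega)
        (opt_of_rec (P := fun {n} G => Gir k G) hcomap h4 G hG hGe) ?_
      rw [edges_eq, hGe']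
      linarith
    obtain ⟨hn1, hnw⟩ := hN₄ n (by omega)
    have hn0 : (0 : ℝ) < n := by exact_mod_cast hn1
    have hw0 : 0 < (n : ℝ) ^ (1 / (k : ℝ)) := Real.rpow_pos_of_pos hn0 _
    have hpow : (n : ℝ) ^ (2 / (k : ℝ)) = (n : ℝ) ^ (1 / (k : ℝ)) * (n : ℝ) ^ (1 / (k : ℝ)) := by
      rw [← Real.rpow_add hn0]
      congr 1
      ring
    have hfar' : ∀ H : SimpleGraph (Fin n), H ≤ G →
        (∀ x (p : H.Walk x x), p.IsCycle → p.length ≠ 2 * k + 1) →
        H.edgeSet.ncard + κ * (n : ℝ) ^ (2 / (k : ℝ)) < G.edgeSet.ncard := by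
      intro H hHG hH
      rw [hGe2]
      refine h7 H fun v p hp => ?_
      have h9 := hG v (p.mapLe hHG) (hp.mapLe hHG)
      rw [SimpleGraph.Walk.length_mapLe] at h9
      have h10 := hH v p hp
      omega
    have hcol : ∀ H : SimpleGraph (Fin n), H ≤ G → H.Colorable 2 →
        H.edgeSet.ncard + κ * (n : ℝ) ^ (2 / (k : ℝ)) < G.edgeSet.ncard := by
      intro H hHG hH
      refine hfar' H hHG fun x p _ hpl => ?_
      have h9 : Even p.length := by
        obtain ⟨col⟩ := hH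
        let col' : H.Coloring Bool := SimpleGraph.Coloring.mk (fun x => decide (col x = 0))
          (fun {a b} h hc => by
            have h5 := col.valid h
            apply h5
            rw [decide_eq_decide] at hc
            have key : ∀ i j : Fin 2, (i = 0 ↔ j = 0) → i = j := by decide
            exact key _ _ hc)
        exact (col'.even_length_iff_congr p).2 Iff.rfl
      rw [hpl] at h9
      exact absurd h9 (by rw [Nat.not_even_iff_odd]; exact ⟨k, rfl⟩)
    refine ⟨hfar', ?_, ?_, ?_⟩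
    · intro T hT H hHG hno
      have hgH : Gir k H := by
        intro v p hp
        have h9 := hG v (p.mapLe hHG) (hp.mapLe hHG)
        rwa [SimpleGraph.Walk.length_mapLe] at h9
      have h8 := hset n (by omega) h4 h6 H T hgH hT hno
      rw [hGe2]
      have hT1 : (2 : ℝ) ≤ T.card := by exact_mod_cast hT
      have h9 : κ * ((T.card : ℝ) - 1) * (n : ℝ) ^ (1 / (k : ℝ)) ≤
          c / 2 / 2 * ((T.card : ℝ) - 1) * (n : ℝ) ^ (1 / (k : ℝ)) :=
        mul_le_mul_of_nonneg_right (mul_le_mul_of_nonneg_right hκ2 (by linarith)) hw0.le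
      linarith
    · rcases hst'.lengths with h9 | h9
      · have h10 := hcol G le_rfl h9
        have h11 : 0 < κ * (n : ℝ) ^ (2 / (k : ℝ)) := by positivity
        linarith
      · exact h9
    · rcases hst'.subdivisions with h9 | h9
      · obtain ⟨H, h10, h11, h12⟩ := h9
        have h13 := hcol H h10 h11
        rw [div_le_iff₀ hκ] at hnw
        have h14 := mul_le_mul_of_nonneg_right hnw hw0.le
        rw [hpow] at h13
        linarith
      · exact h9

theorem gir_eq (k : ℕ) : (fun (n : ℕ) (G : SimpleGraph (Fin n)) => ((2 * k : ℕ) : ℕ∞) < G.egirth) =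
    fun _ G => Gir k G := by
  funext n G
  exact propext (egirth_iff G _)

/-- Graphs of girth greater than `2 k`. -/
theorem girth {k : ℕ} (hk : 2 ≤ k) {c : ℝ} (hc : 0 < c) :
    ∃ (δ κ : ℝ) (l₀ : ℕ), 0 < δ ∧ 0 < κ ∧ ∀ L r : ℕ, ∃ N₀ : ℕ,
      ∀ N ≥ N₀, c * (N : ℝ) ^ (1 + 1 / (k : ℝ)) ≤ ex (fun _ G => ((2 * k : ℕ) : ℕ∞) < G.egirth) N →
        δ * N ≤ ({n : ℕ | n ≤ N ∧
          (ex (fun _ G => ((2 * k + 1 : ℕ) : ℕ∞) < G.egirth) n : ℝ) + κ * (n : ℝ) ^ (2 / (k : ℝ)) <
          (ex (fun _ G => ((2 * k : ℕ) : ℕ∞) < G.egirth) n : ℝ) ∧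
          ∀ G : SimpleGraph (Fin n), ((2 * k : ℕ) : ℕ∞) < G.egirth →
          G.edgeSet.ncard = ex (fun _ G => ((2 * k : ℕ) : ℕ∞) < G.egirth) n →
          Far k κ l₀ L r G}.ncard : ℝ) := by
  rw [gir_eq]
  obtain ⟨δ, κ, l₀, hδ, hκ, hmain⟩ := far_main hk hc
  refine ⟨δ, κ, l₀, hδ, hκ, fun L r => ?_⟩
  obtain ⟨N₀, hN₀⟩ := hmain L r
  refine ⟨N₀, fun N hN hE => (hN₀ N hN hE).trans ?_⟩
  refine Nat.cast_le.2 (Set.ncard_le_ncard ?_ ((Set.finite_Iic N).subset fun n hn => hn.1))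
  intro n hn
  refine ⟨hn.1, ?_, fun G hG hGe => hn.2.2 G ((egirth_iff G _).1 hG) hGe⟩
  obtain ⟨H, hH, hHe⟩ := exP_mem (P := fun {n} (G : SimpleGraph (Fin n)) =>
    ((2 * k + 1 : ℕ) : ℕ∞) < G.egirth) (n := n) ⟨⊥, by
      rw [egirth_iff]
      intro v p hp
      cases p with
      | nil => exact absurd rfl hp.ne_nil
      | cons h _ => exact absurd h (by simp)⟩
  have h1 := hn.2.1 H ((egirth_iff H _).1 hH)
  rw [hHe] at h1
  exact h1

/-- The case of the girth conjecture. -/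
theorem girth_conj {k : ℕ} (hk : 2 ≤ k) (hconj : GirthConjecture k) :
    ∃ (δ κ : ℝ) (l₀ : ℕ), 0 < δ ∧ 0 < κ ∧ ∀ L r : ℕ, ∃ N₀ : ℕ,
      ∀ N ≥ N₀, δ * N ≤ ({n : ℕ | n ≤ N ∧
          (ex (fun _ G => ((2 * k + 1 : ℕ) : ℕ∞) < G.egirth) n : ℝ) + κ * (n : ℝ) ^ (2 / (k : ℝ)) <
          (ex (fun _ G => ((2 * k : ℕ) : ℕ∞) < G.egirth) n : ℝ) ∧
          ∀ G : SimpleGraph (Fin n), ((2 * k : ℕ) : ℕ∞) < G.egirth →
          G.edgeSet.ncard = ex (fun _ G => ((2 * k : ℕ) : ℕ∞) < G.egirth) n →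
          Far k κ l₀ L r G}.ncard : ℝ) := by
  obtain ⟨c, hc, N₁, hN₁⟩ := hconj
  obtain ⟨δ, κ, l₀, hδ, hκ, hmain⟩ := girth hk hc
  refine ⟨δ, κ, l₀, hδ, hκ, fun L r => ?_⟩
  obtain ⟨N₀, hN₀⟩ := hmain L r
  refine ⟨N₀ + N₁, fun N hN => hN₀ N (by omega) ?_⟩
  obtain ⟨G, hG, hGe⟩ := hN₁ N (by omega)
  refine hGe.trans ?_
  exact_mod_cast le_exP (P := fun {_} G => ((2 * k : ℕ) : ℕ∞) < G.egirth) hG

theorem result (k : ℕ) (hk : 2 ≤ k) :
    -- with a lower bound for the extremal number of `N`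
    (∀ c : ℝ, 0 < c → ∃ (δ κ : ℝ) (l₀ : ℕ), 0 < δ ∧ 0 < κ ∧ ∀ L r : ℕ, ∃ N₀ : ℕ, ∀ N ≥ N₀,
      c * (N : ℝ) ^ (1 + 1 / (k : ℝ)) ≤ ex (fun _ G => ((2 * k : ℕ) : ℕ∞) < G.egirth) N →
        δ * N ≤ ({n : ℕ | n ≤ N ∧
          (ex (fun _ G => ((2 * k + 1 : ℕ) : ℕ∞) < G.egirth) n : ℝ) + κ * (n : ℝ) ^ (2 / (k : ℝ)) <
          (ex (fun _ G => ((2 * k : ℕ) : ℕ∞) < G.egirth) n : ℝ) ∧
          ∀ G : SimpleGraph (Fin n), ((2 * k : ℕ) : ℕ∞) < G.egirth →
          G.edgeSet.ncard = ex (fun _ G => ((2 * k : ℕ) : ℕ∞) < G.egirth) n →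
          Far k κ l₀ L r G}.ncard : ℝ)) ∧
    -- the case of the girth conjecture
    (GirthConjecture k → ∃ (δ κ : ℝ) (l₀ : ℕ), 0 < δ ∧ 0 < κ ∧ ∀ L r : ℕ, ∃ N₀ : ℕ, ∀ N ≥ N₀,
      δ * N ≤ ({n : ℕ | n ≤ N ∧
          (ex (fun _ G => ((2 * k + 1 : ℕ) : ℕ∞) < G.egirth) n : ℝ) + κ * (n : ℝ) ^ (2 / (k : ℝ)) <
          (ex (fun _ G => ((2 * k : ℕ) : ℕ∞) < G.egirth) n : ℝ) ∧
          ∀ G : SimpleGraph (Fin n), ((2 * k : ℕ) : ℕ∞) < G.egirth →
          G.edgeSet.ncard = ex (fun _ G => ((2 * k : ℕ) : ℕ∞) < G.egirth) n →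
          Far k κ l₀ L r G}.ncard : ℝ)) :=
  ⟨fun _ hc => girth hk hc, girth_conj hk⟩

end Pool.Agent.Results.MP_97687e_co.GirthGap
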